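import Pool.Agent.N816.PG21.Xn
import Pool.Agent.N975.P21G.Rot7
import Pool.Agent.N970.RQ.X21
import Pool.Agent.N877.P21G.Ka

/-!
# BIL3 and BIL21 of project P21G

For `3 ∣ n` every vector of norm `n` lies on exactly one isotropic line modulo `3`.  The rotation of
norm `1` exchanges the lines `0, 2` and `1, 3`, the rotation of norm `7` the lines `0, 3` and `1, 2`.
-/

set_option autoImplicit false

namespace Pool.Agent.N971.P21G.B3

open Finset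
open Pool.Agent.N969.P15 (V3)
open Pool.Agent.N969.P17G (sgnE)
open Pool.Agent.N969.RQ (ip7 vec7 c7 Fd)
open Pool.Agent.N970.P21G (mem7 pc7g)
open Pool.Agent.N970.RQ (L3 M3 b3 L3_cast b3_cast dvd3_iff rot7 wot7 rot7_rot7 wot7_wot7)
open Pool.Agent.N975.P21G (Pp E_ex mem_rot mem_wot mem_neg)
open Pool.Agent.N877.P21G

/-! ### lines modulo `3` -/

theorem com_line : ∀ a b c x y z : ZMod 3, b3 a b c a b c = 0 → b3 x y z x y z = 0 →
    ¬ (a = 0 ∧ b = 0 ∧ c = 0) → ¬ (x = 0 ∧ y = 0 ∧ z = 0) →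
    ∑ i : Fin 4, (if M3 i a b c = 0 then (1 : ℤ) else 0) * (if M3 i x y z = 0 then 1 else 0) =
      if b3 a b c x y z = 0 then 1 else 0 := by
  decide +kernel

theorem nz3 {n : ℕ} (h9 : ¬ 9 ∣ n) {v : V3} (hv : ip7 v v = n) :
    ¬ ((v 0 : ZMod 3) = 0 ∧ (v 1 : ZMod 3) = 0 ∧ (v 2 : ZMod 3) = 0) := by
  rintro ⟨h0, h1, h2⟩
  rw [← dvd3_iff] at h0 h1 h2
  obtain ⟨a, ha⟩ := h0
  obtain ⟨b, hb⟩ := h1
  obtain ⟨c, hc⟩ := h2
  apply h9
  have : (9 : ℤ) ∣ n := ⟨7 * a ^ 2 + 4 * b ^ 2 + 8 * c ^ 2 + 4 * b * c, by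
    rw [← hv]; unfold ip7; rw [ha, hb, hc]; ring⟩
  exact_mod_cast this

theorem ip_cast (v w : V3) : ((ip7 v w : ℤ) : ZMod 3) =
    b3 (v 0) (v 1) (v 2) (w 0) (w 1) (w 2) := by
  rw [Pool.Agent.N970.RQ.ip7_eq, b3_cast]

/-- the common lines of two vectors -/
theorem ip_three {n : ℕ} (h3 : 3 ∣ n) (h9 : ¬ 9 ∣ n) {v w : V3} (hv : ip7 v v = n)
    (hw : ip7 w w = n) :
    ∑ i : Fin 4, (if (3 : ℤ) ∣ L3 i v then (1 : ℤ) else 0) * (if (3 : ℤ) ∣ L3 i w then 1 else 0) =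
      if (3 : ℤ) ∣ ip7 v w then 1 else 0 := by
  have hn : ((n : ℤ) : ZMod 3) = 0 := by
    rw [← dvd3_iff]
    exact_mod_cast h3
  have e1 := ip_cast v v
  have e2 := ip_cast w w
  rw [hv, hn] at e1
  rw [hw, hn] at e2
  have key := com_line _ _ _ _ _ _ e1.symm e2.symm (nz3 h9 hv) (nz3 h9 hw)
  rw [← ip_cast] at key
  simp only [dvd3_iff, L3_cast]
  exact key

/-! ### the sums over the lines -/

theorem sum_inv {V : Finset V3} (f : V3 → V3) (hf : ∀ v ∈ V, f v ∈ V) (hff : ∀ v, f (f v) = v)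
    (g : V3 → ℤ) : ∑ v ∈ V, g (f v) = ∑ v ∈ V, g v := by
  refine Finset.sum_nbij' f f hf hf (fun v _ => hff v) (fun v _ => hff v) ?_
  intro v _
  rfl

/-- the pairs on different lines -/
theorem q3 {A m : ℕ} (h : Pp A m) (h7 : ¬ 7 ∣ A) (hj : jacobiSym A 7 = -1) (h3 : 3 ∣ A * m)
    (h9 : ¬ 9 ∣ A * m) :
    4 * ∑ v ∈ vec7 ((A * m : ℕ) : ℤ), ∑ w ∈ vec7 ((A * m : ℕ) : ℤ),
      (if (3 : ℤ) ∣ ip7 v w then 0 else sgnE 1 A (A * m) (((A * m : ℕ) + ip7 v w) / 2)) =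
        - P7 A (A * m) := by
  obtain ⟨E, h1, h2, hneg, hrot, hwot⟩ := E_ex h h7
  rw [hj] at hwot
  obtain ⟨V, hV⟩ : ∃ V, V = vec7 ((A * m : ℕ) : ℤ) := ⟨_, rfl⟩
  obtain ⟨y, hy⟩ : ∃ y : Fin 4 → ℤ, ∀ i, y i = ∑ v ∈ V, if (3 : ℤ) ∣ L3 i v then E v else 0 :=
    ⟨fun i => ∑ v ∈ V, if (3 : ℤ) ∣ L3 i v then E v else 0, fun i => rfl⟩
  have mr : ∀ v ∈ V, rot7 v ∈ V := fun v hv => by rw [hV] at hv ⊢; exact mem_rot hv
  have mw : ∀ v ∈ V, wot7 v ∈ V := fun v hv => by rw [hV] at hv ⊢; exact mem_wot hv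
  rw [← hV] at h2 hneg hrot hwot ⊢
  -- all vectors
  have s0 : ∑ v ∈ V, E v = 0 := by
    have e := sum_inv wot7 mw wot7_wot7 E
    rw [Finset.sum_congr rfl fun v hv => hwot v hv, ← Finset.mul_sum] at e
    linarith
  -- the rotations
  have tr : ∀ (f : V3 → V3) (s : ℤ) (i j : Fin 4), (∀ v ∈ V, f v ∈ V) → (∀ v, f (f v) = v) →
      (∀ v ∈ V, E (f v) = s * E v) → (∀ v : V3, (3 : ℤ) ∣ L3 i (f v) ↔ (3 : ℤ) ∣ L3 j v) →
      y i = s * y j := by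
    intro f s i j m1 m2 m3 m4
    rw [hy, hy, ← sum_inv f m1 m2, Finset.mul_sum]
    refine Finset.sum_congr rfl fun v hv => ?_
    simp only [m4]
    split_ifs
    · exact m3 v hv
    · rw [mul_zero]
  have y2 : y 0 = 1 * y 2 := tr rot7 1 0 2 mr rot7_rot7 (fun v hv => by rw [hrot v hv, one_mul])
    (fun v => by simp only [L3, rot7]; simp; omega)
  have y1 : y 3 = 1 * y 1 := tr rot7 1 3 1 mr rot7_rot7 (fun v hv => by rw [hrot v hv, one_mul])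
    (fun v => by simp only [L3, rot7]; simp; omega)
  have y3 : y 0 = -1 * y 3 := tr wot7 (-1) 0 3 mw wot7_wot7 hwot
    (fun v => by simp only [L3, wot7]; simp; omega)
  -- the weighted sum
  have hP : P7 A (A * m) = (2 * (y 0 - y 3)) ^ 2 := by
    unfold P7
    rw [← hV]
    have e1 : 2 * (y 0 - y 3) = ∑ v ∈ V, w7 (A * m) v * E v := by
      rw [hy, hy, ← Finset.sum_sub_distrib, Finset.mul_sum]
      refine Finset.sum_congr rfl fun v _ => ?_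
      unfold w7
      rw [if_pos h3]
      have c1 : (3 : ℤ) ∣ L3 0 v ↔ (3 : ℤ) ∣ v 1 + v 0 := by
        show (3 : ℤ) ∣ v 0 + v 1 ↔ _
        rw [add_comm]
      have c2 : (3 : ℤ) ∣ L3 3 v ↔ (3 : ℤ) ∣ v 1 - v 0 := by
        show (3 : ℤ) ∣ v 0 - v 1 ↔ _
        omega
      simp only [c1, c2]
      split_ifs <;> ring
    rw [e1, pow_two, Finset.sum_mul_sum]
    refine Finset.sum_congr rfl fun v hv => Finset.sum_congr rfl fun w hw => ?_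
    rw [h2 v hv w hw]
    ring
  -- the pairs on the same line
  have hS : ∑ v ∈ V, ∑ w ∈ V, (if (3 : ℤ) ∣ ip7 v w then 0 else
      sgnE 1 A (A * m) (((A * m : ℕ) + ip7 v w) / 2)) = - ∑ i : Fin 4, y i ^ 2 := by
    have e1 : ∑ v ∈ V, ∑ w ∈ V, (if (3 : ℤ) ∣ ip7 v w then 0 else
        sgnE 1 A (A * m) (((A * m : ℕ) + ip7 v w) / 2)) =
        ∑ v ∈ V, ∑ w ∈ V, (E v * E w - ∑ i : Fin 4, (if (3 : ℤ) ∣ L3 i v then E v else 0) *
          (if (3 : ℤ) ∣ L3 i w then E w else 0)) := by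
      refine Finset.sum_congr rfl fun v hv => Finset.sum_congr rfl fun w hw => ?_
      have hv' := hv
      have hw' := hw
      rw [hV, mem7] at hv' hw'
      have e2 := ip_three h3 h9 hv' hw'
      have e3 : ∑ i : Fin 4, (if (3 : ℤ) ∣ L3 i v then E v else 0) *
          (if (3 : ℤ) ∣ L3 i w then E w else 0) = (if (3 : ℤ) ∣ ip7 v w then 1 else 0) *
            (E v * E w) := by
        rw [← e2, Finset.sum_mul]
        refine Finset.sum_congr rfl fun i _ => ?_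
        split_ifs <;> ring
      rw [e3, h2 v hv w hw]
      split_ifs <;> ring
    rw [e1]
    simp only [Finset.sum_sub_distrib]
    rw [← Finset.sum_mul_sum, s0, mul_zero, zero_sub]
    congr 1
    rw [Finset.sum_congr rfl fun v _ => Finset.sum_comm, Finset.sum_comm]
    refine Finset.sum_congr rfl fun i _ => ?_
    rw [← Finset.sum_mul_sum, ← hy, pow_two]
  rw [hS, hP, Fin.sum_univ_four]
  rw [one_mul] at y1 y2
  have e1 : y 1 = -y 0 := by linarith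
  have e2 : y 2 = y 0 := y2.symm
  have e3 : y 3 = -y 0 := by linarith
  rw [e1, e2, e3]
  ring

/-- the sum over `T` as a sum over the pairs -/
theorem sum_f {n : ℕ} (f : ℤ → ℤ) (h0 : f 0 = 0) (hn : f n = 0) :
    ∑ T ∈ (range n).filter (fun T => 0 < T), f T * (c7 n (2 * T - n) n : ℤ) =
      ∑ v ∈ vec7 n, ∑ w ∈ vec7 n, f ((n + ip7 v w) / 2) := by
  rw [Pool.Agent.N816.Xn.sum_T7]
  refine Finset.sum_congr rfl fun v _ => Finset.sum_congr rfl fun w _ => ?_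
  by_cases h1 : ip7 v w = n
  · rw [if_neg (fun h => h.1 h1), h1]
    have e : ((n : ℤ) + n) / 2 = n := by omega
    rw [e, hn]
  · by_cases h2 : ip7 v w = -n
    · rw [if_neg (fun h => h.2 h2), h2]
      have e : ((n : ℤ) + -n) / 2 = 0 := by omega
      rw [e, h0]
    · rw [if_pos ⟨h1, h2⟩]

theorem nine {A m : ℕ} (h : Pp A m) : ¬ 9 ∣ A * m := by
  intro h9
  rcases h.n with ⟨h1, -⟩ | ⟨M, hM, h1, -⟩
  · have := Nat.isUnit_iff.1 (h1 3 h9)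
    omega
  · rw [hM] at h9
    have h10 : 3 * 3 ∣ M := (by norm_num : Nat.Coprime (3 * 3) 4).dvd_of_dvd_mul_left h9
    have := Nat.isUnit_iff.1 (h1 3 h10)
    omega

/-- `T` in terms of the pair -/
theorem T_spec {n : ℕ} {v w : V3} (hv : v ∈ vec7 (n : ℤ)) (hw : w ∈ vec7 (n : ℤ)) :
    ∃ T : ℤ, (n + ip7 v w) / 2 = T ∧ (n + ip7 v (-w)) / 2 = n - T ∧ ip7 v w = 2 * T - n ∧
      (7 : ℤ) ∣ T * (n - T) := by
  have hv' := mem7.1 hv
  have hw' := mem7.1 hw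
  have h2 := Pool.Agent.N816.Xn.ip7_par hv' hw'
  obtain ⟨k, hk⟩ := h2
  refine ⟨k + n, by omega, ?_, by omega, ?_⟩
  · rw [Pool.Agent.N816.Xn.ip7_neg]
    omega
  · have h28 : (28 : ℤ) ∣ ip7 v v * ip7 w w - ip7 v w ^ 2 := by
      have h := Pool.Agent.N970.RQ.L7.lag2 v w
      rw [Pool.Agent.N970.RQ.ip7_eq, Pool.Agent.N970.RQ.ip7_eq, Pool.Agent.N970.RQ.ip7_eq]
      exact ⟨_, by rw [h]; push_cast; ring⟩
    rw [hv', hw'] at h28
    obtain ⟨j, hj⟩ := h28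
    refine ⟨j, ?_⟩
    have : ip7 v w = 2 * k + n := by linarith
    rw [this] at hj
    linarith

/-- the pairs with `7 ∣ T`, `3 ∤ T`; `7` inert -/
theorem half7 {A m : ℕ} (h : Pp A m) (h7 : ¬ 7 ∣ A) (h3 : 3 ∣ A * m) (hn7 : ¬ 7 ∣ A * m) :
    2 * ∑ v ∈ vec7 ((A * m : ℕ) : ℤ), ∑ w ∈ vec7 ((A * m : ℕ) : ℤ),
      (if (7 : ℤ) ∣ ((A * m : ℕ) + ip7 v w) / 2 ∧ ¬ (3 : ℤ) ∣ ((A * m : ℕ) + ip7 v w) / 2 then
        sgnE 1 A (A * m) (((A * m : ℕ) + ip7 v w) / 2) else 0) =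
    ∑ v ∈ vec7 ((A * m : ℕ) : ℤ), ∑ w ∈ vec7 ((A * m : ℕ) : ℤ),
      (if (3 : ℤ) ∣ ip7 v w then 0 else sgnE 1 A (A * m) (((A * m : ℕ) + ip7 v w) / 2)) := by
  obtain ⟨E, h1, h2, hneg, -, -⟩ := E_ex h h7
  obtain ⟨n, hn⟩ : ∃ n, n = A * m := ⟨_, rfl⟩
  rw [← hn] at h2 hneg h3 hn7 ⊢
  rw [Finset.mul_sum]
  refine Finset.sum_congr rfl fun v hv => ?_
  rw [two_mul]
  nth_rewrite 2 [← sum_inv (V := vec7 (n : ℤ)) (fun w => -w)
    (fun w hw => mem_neg hw) (fun w => neg_neg w)]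
  rw [← Finset.sum_add_distrib]
  refine Finset.sum_congr rfl fun w hw => ?_
  obtain ⟨T, t1, t2, t3, t4⟩ := T_spec hv hw
  have hs : sgnE 1 A n ((n + ip7 v (-w)) / 2) = sgnE 1 A n ((n + ip7 v w) / 2) := by
    rw [h2 v hv (-w) (mem_neg hw), h2 v hv w hw, hneg w hw]
  rw [hs, t2, t1, t3]
  have p7 : Prime (7 : ℤ) := Nat.prime_iff_prime_int.1 (by norm_num)
  have h3n : (3 : ℤ) ∣ n := by exact_mod_cast h3
  have h7n : ¬ (7 : ℤ) ∣ n := by exact_mod_cast hn7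
  by_cases c3 : (3 : ℤ) ∣ T
  · rw [if_neg (fun h => h.2 c3), if_neg (fun h => h.2 (dvd_sub h3n c3)), if_pos (by omega)]
    rfl
  · have c3' : ¬ (3 : ℤ) ∣ 2 * T - n := by omega
    have c3n : ¬ (3 : ℤ) ∣ n - T := by omega
    rw [if_neg c3']
    rcases p7.dvd_mul.1 t4 with c7 | c7
    · rw [if_pos ⟨c7, c3⟩, if_neg (fun h => h7n (by
        have := dvd_add h.1 c7
        rwa [sub_add_cancel] at this)), add_zero]
    · rw [if_neg (fun h => h7n (by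
        have := dvd_add c7 h.1
        rwa [sub_add_cancel] at this)), if_pos ⟨c7, c3n⟩, zero_add]

/-- the pairs with `3 ∤ T`; `7 ∣ n` -/
theorem all7 {A m : ℕ} (h3 : 3 ∣ A * m) (hn7 : 7 ∣ A * m) :
    ∑ v ∈ vec7 ((A * m : ℕ) : ℤ), ∑ w ∈ vec7 ((A * m : ℕ) : ℤ),
      (if (7 : ℤ) ∣ ((A * m : ℕ) + ip7 v w) / 2 ∧ ¬ (3 : ℤ) ∣ ((A * m : ℕ) + ip7 v w) / 2 then
        sgnE 1 A (A * m) (((A * m : ℕ) + ip7 v w) / 2) else 0) =
    ∑ v ∈ vec7 ((A * m : ℕ) : ℤ), ∑ w ∈ vec7 ((A * m : ℕ) : ℤ),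
      (if (3 : ℤ) ∣ ip7 v w then 0 else sgnE 1 A (A * m) (((A * m : ℕ) + ip7 v w) / 2)) := by
  obtain ⟨n, hn⟩ : ∃ n, n = A * m := ⟨_, rfl⟩
  rw [← hn] at h3 hn7 ⊢
  refine Finset.sum_congr rfl fun v hv => Finset.sum_congr rfl fun w hw => ?_
  obtain ⟨T, t1, t2, t3, t4⟩ := T_spec hv hw
  rw [t1, t3]
  have p7 : Prime (7 : ℤ) := Nat.prime_iff_prime_int.1 (by norm_num)
  have h3n : (3 : ℤ) ∣ n := by exact_mod_cast h3
  have h7n : (7 : ℤ) ∣ n := by exact_mod_cast hn7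
  have h7T : (7 : ℤ) ∣ T := by
    rcases p7.dvd_mul.1 t4 with c7 | c7
    · exact c7
    · have := dvd_sub h7n c7
      rwa [sub_sub_cancel] at this
  by_cases c3 : (3 : ℤ) ∣ T
  · rw [if_neg (fun h => h.2 c3), if_pos (by omega)]
  · rw [if_pos ⟨h7T, c3⟩, if_neg (by omega)]

/-- the sum over `T` -/
theorem sum_fT {A m : ℕ} (h3 : 3 ∣ A * m) :
    ∑ T ∈ (range (A * m)).filter (fun T => 7 ∣ T ∧ ¬ 3 ∣ T), sgnE 1 A (A * m) T *
      (c7 (A * m : ℕ) (2 * T - (A * m : ℕ)) (A * m : ℕ) : ℤ) =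
    ∑ v ∈ vec7 ((A * m : ℕ) : ℤ), ∑ w ∈ vec7 ((A * m : ℕ) : ℤ),
      (if (7 : ℤ) ∣ ((A * m : ℕ) + ip7 v w) / 2 ∧ ¬ (3 : ℤ) ∣ ((A * m : ℕ) + ip7 v w) / 2 then
        sgnE 1 A (A * m) (((A * m : ℕ) + ip7 v w) / 2) else 0) := by
  have h3n : (3 : ℤ) ∣ (A * m : ℕ) := by exact_mod_cast h3
  have e := sum_f (n := A * m) (fun T : ℤ => if (7 : ℤ) ∣ T ∧ ¬ (3 : ℤ) ∣ T then
    sgnE 1 A (A * m) T else 0) (if_neg fun h => h.2 (dvd_zero _)) (if_neg fun h => h.2 h3n)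
  rw [← e, Finset.sum_filter, Finset.sum_filter]
  refine Finset.sum_congr rfl fun T _ => ?_
  have c1 : ((7 : ℤ) ∣ (T : ℤ)) ↔ 7 ∣ T := by norm_cast
  have c2 : ((3 : ℤ) ∣ (T : ℤ)) ↔ 3 ∣ T := by norm_cast
  simp only [c1, c2]
  by_cases h0 : 0 < T
  · rw [if_pos h0]
    split_ifs
    · rfl
    · rw [zero_mul]
  · have : T = 0 := by omega
    subst this
    simp

/-- the shape of the pairs with `3 ∣ n` -/
theorem pr3 {A m : ℕ} (h : Pr3 A m) : Pp A m ∧ ¬ 7 ∣ A ∧ jacobiSym A 7 = -1 ∧ 3 ∣ A * m ∧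
    I7 (A * m) := by
  obtain ⟨h1, hc⟩ := h
  have key : Fd A ∧ Fn m ∧ jacobiSym A 7 = -1 ∧ 3 ∣ A * m ∧ jacobiSym m 7 = -1 := by
    have sp : ∀ {n : ℕ}, Pool.Agent.N877.P21.Sp7 n → jacobiSym n 7 = -1 := by
      intro n hn
      rw [jacobiSym.mod_left]
      unfold Pool.Agent.N877.P21.Sp7 at hn
      rcases hn with h | h | h
      · have : (n : ℤ) % ((7 : ℕ) : ℤ) = 3 := by push_cast; omega
        rw [this]; norm_num
      · have : (n : ℤ) % ((7 : ℕ) : ℤ) = 5 := by push_cast; omega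
        rw [this]; norm_num
      · have : (n : ℤ) % ((7 : ℕ) : ℤ) = 6 := by push_cast; omega
        rw [this]; norm_num
    rcases h1 with ⟨hA, hm⟩ | ⟨hA, hm⟩
    · refine ⟨hA.1, Fn_K3 hm, hA.2.2, (dvd3_K3 hm).mul_left A, ?_⟩
      rcases hm with h | h
      · exact sp h.2.2.1
      · exact sp h.2.1
    · refine ⟨hA.1, Fn_K0 hm, hA.2.2, hA.2.1.mul_right m, ?_⟩
      rcases hm with h | h
      · exact sp h.2.2.2
      · exact sp h.2.2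
  obtain ⟨k1, k2, k3, k4, k5⟩ := key
  refine ⟨⟨Or.inr k1, k2, hc⟩, jac7 (by norm_num) k3, k3, k4, ?_⟩
  have e : jacobiSym ((A * m : ℕ) : ℤ) 7 = 1 := by
    push_cast
    rw [jacobiSym.mul_left, k3, k5]
    norm_num
  have e7 : (A * m) % 7 < 7 := Nat.mod_lt _ (by norm_num)
  unfold I7
  rw [jacobiSym.mod_left] at e
  have e8 : (((A * m : ℕ) : ℤ) % ((7 : ℕ) : ℤ)) = ((A * m % 7 : ℕ) : ℤ) := by push_cast; rfl
  rw [e8] at e
  generalize (A * m) % 7 = r at e e7 ⊢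
  interval_cases r <;> revert e <;> decide +kernel

/-- the shape of the pairs with `21 ∣ n` -/
theorem pr21 {A m : ℕ} (h : Pr21 A m) : Pp A m ∧ ¬ 7 ∣ A ∧ jacobiSym A 7 = -1 ∧ 3 ∣ A * m ∧
    7 ∣ A * m := by
  obtain ⟨h1, hc⟩ := h
  rcases h1 with ⟨hA, hm⟩ | ⟨hA, hm⟩
  · refine ⟨⟨Or.inr hA.1, Fn_K21 hm, hc⟩, Ai_7 hA, hA.2.2, (dvd3_K21 hm).mul_left A, ?_⟩
    rcases hm with h | h
    · exact h.2.2.1.mul_left A
    · exact h.2.1.mul_left A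
  · refine ⟨⟨Or.inr hA.1, Fn_K7 hm, hc⟩, A0_7 hA, hA.2.2, hA.2.1.mul_right m, ?_⟩
    rcases hm with h | h
    · exact h.2.2.1.mul_left A
    · exact h.2.1.mul_left A

theorem det {n T : ℕ} (h : T < n) : (((4 * (n - T) * T : ℕ)) : ℤ) =
    (n : ℤ) * (n : ℕ) - (2 * T - (n : ℕ)) ^ 2 := by
  obtain ⟨S, rfl⟩ : ∃ S, n = T + S := ⟨n - T, by omega⟩
  rw [Nat.add_sub_cancel_left]
  push_cast
  ring

/-- **BIL3** -/
theorem t_BIL3 : S_BIL3 := by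
  intro A m hP
  obtain ⟨h, h7, hj, h3, hI⟩ := pr3 hP
  have hn7 : ¬ 7 ∣ A * m := by
    unfold I7 at hI
    omega
  have e1 : ∀ T ∈ (range (A * m)).filter (fun T => 7 ∣ T ∧ ¬ 3 ∣ T), sgnE 1 A (A * m) T *
      (c7 (A * m : ℕ) (2 * T - (A * m : ℕ)) (A * m : ℕ) : ℤ) = 4 * (sgnE 1 A (A * m) T *
      L7 (A * m) (2 * T - (A * m : ℕ)) (4 * (A * m - T) * T)) := by
    intro T hT
    rw [Finset.mem_filter, Finset.mem_range] at hT
    have h0 : 0 < T := by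
      rcases Nat.eq_zero_or_pos T with rfl | h0
      · exact absurd (dvd_zero 3) hT.2.2
      · exact h0
    rw [pc7g h.n (fun h2 => by
      obtain ⟨M, hM, -⟩ := Pool.Agent.N871.G21.Fn_two h.n h2
      exact ⟨M, hM⟩) hI (D := 4 * (A * m - T) * T)
      (Nat.mul_pos (Nat.mul_pos (by norm_num) (by omega)) h0) (det hT.1)]
    ring
  have e2 := sum_fT (A := A) (m := m) h3
  rw [Finset.sum_congr rfl e1, ← Finset.mul_sum] at e2
  have e3 := half7 h h7 h3 hn7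
  have e4 := q3 h h7 hj h3 (nine h)
  rw [← e3, ← e2] at e4
  linarith

/-- **BIL21** -/
theorem t_BIL21 : S_BIL21 := by
  intro A m hP
  obtain ⟨h, h7, hj, h3, hn7⟩ := pr21 hP
  have e1 : ∀ T ∈ (range (A * m)).filter (fun T => 7 ∣ T ∧ ¬ 3 ∣ T), sgnE 1 A (A * m) T *
      (c7 (A * m : ℕ) (2 * T - (A * m : ℕ)) (A * m : ℕ) : ℤ) = 2 * (sgnE 1 A (A * m) T *
      L7r (A * m) (2 * T - (A * m : ℕ)) (4 * (A * m - T) * T)) := by
    intro T hT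
    rw [Finset.mem_filter, Finset.mem_range] at hT
    have h0 : 0 < T := by
      rcases Nat.eq_zero_or_pos T with rfl | h0
      · exact absurd (dvd_zero 3) hT.2.2
      · exact h0
    have hD : 0 < 4 * (A * m - T) * T :=
      Nat.mul_pos (Nat.mul_pos (by norm_num) (by omega)) h0
    have hc : (c7 (A * m : ℕ) (2 * T - (A * m : ℕ)) (A * m : ℕ) : ℤ) =
        2 * L7r (A * m) (2 * T - (A * m : ℕ)) (4 * (A * m - T) * T) := by
      rcases h.n with h4 | h4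
      · exact Pool.Agent.N970.P21G.t_PC7r _ _ _ _ h4.1 h4.2 hn7 hD (det hT.1)
      · refine Pool.Agent.N970.P21G.t_PC7rE _ _ _ _ h4 hn7 ?_ hD (det hT.1)
        obtain ⟨M, hM, -⟩ := h4
        exact ⟨M, hM⟩
    rw [hc]
    ring
  have e2 := sum_fT (A := A) (m := m) h3
  rw [Finset.sum_congr rfl e1, ← Finset.mul_sum] at e2
  have e3 := all7 (A := A) (m := m) h3 hn7
  have e4 := q3 h h7 hj h3 (nine h)
  rw [← e3, ← e2] at e4
  linarith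

end Pool.Agent.N971.P21G.B3
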