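import Pool.Agent.N971.P15G.Cnf
import Pool.Agent.N970.P21G.CP3

/-!
# CN7 of project P21G: the class number formula for the lattice of discriminant `7`
-/

set_option autoImplicit false

namespace Pool.Agent.N971.P21G

open Finset
open Pool.Agent.Z700 (hh fac)
open Pool.Agent.N969.P15 (V3 tw tb ep2 Ev un chE c2)
open Pool.Agent.N969.P17G (chP chM bdE)
open Pool.Agent.N969.RQ (ip7 vec7 c7 Fd)
open Pool.Agent.N877.P21G (Fn I7 K7 L7 L7r dt S_CN7)
open Pool.Agent.N877.P21 (rr)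
open Pool.Agent.N609.CNF (Gc locq locr locqE locrE final finalR finalE finalRE cp_zero total totalE
  cpE ev_ne)
open Pool.Agent.N809.PG (HS CG)
open Pool.Agent.N971.P15G (CG_odd CG_even bd_CG prod_odd prod_even cn_odd3 cn_even3 cn_odd cn_even)

/-- the lattice -/
def g7 : Gc := ⟨7, 4, 8, 0, 0, -2⟩

lemma dom7 : g7.Dom := by unfold Gc.Dom g7; norm_num

lemma ip7_eq' (v w : V3) : ip7 v w = Pool.Agent.N609.CNF.ip g7 v w := by
  simp only [ip7, Pool.Agent.N609.CNF.ip, g7]; ring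

lemma vec7_eq (n : ℤ) : vec7 n = Pool.Agent.N609.CNF.vec g7 n := by
  ext v
  simp only [vec7, Pool.Agent.N609.CNF.vec, mem_filter, ip7_eq']

lemma c7_eq' (n b m : ℤ) : c7 n b m = Pool.Agent.N609.CNF.cp g7 n b m := by
  simp only [c7, Pool.Agent.N609.CNF.cp, vec7_eq, ip7_eq']

lemma tot7 (n : ℕ) (hn : 0 < n) : ∃ κ K' : ℝ, ∀ t : ℝ, 0 < t → t ≤ 1 →
    ∃ s : ℝ, HasSum (fun k : ℕ => ((c7 n 0 k : ℤ) : ℝ) * Real.exp (-(t * k))) s ∧
      |s - κ / t| ≤ K' * t := by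
  obtain ⟨κ1, K1, h1⟩ := total dom7 n hn
  refine ⟨κ1, K1, fun t ht ht1 => ?_⟩
  obtain ⟨s1, hs1, hb1⟩ := h1 t ht ht1
  refine ⟨s1, ?_, hb1⟩
  refine hs1.congr_fun fun k => ?_
  rw [c7_eq']
  push_cast
  ring

lemma c7_zero (n : ℕ) : (c7 n 0 (0 : ℕ) : ℤ) = (vec7 n).card := by
  have c1 := cp_zero dom7 n
  simp only [Nat.cast_zero, c7_eq', c1, vec7_eq]

/-- the sublattice of the vectors with norm divisible by `4` -/
def E7 : Submodule ℤ V3 where
  carrier := {w | (2 : ℤ) ∣ w 0}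
  add_mem' := by
    intro a b ha hb
    have := dvd_add ha hb
    simp only [Set.mem_ofPred_eq, Pi.add_apply]
    exact this
  zero_mem' := by simp
  smul_mem' := by
    intro c a ha
    simp only [Set.mem_ofPred_eq, Pi.smul_apply, smul_eq_mul] at ha ⊢
    exact ha.mul_left c

lemma mem_E7 (w : V3) : w ∈ E7 ↔ (2 : ℤ) ∣ w 0 := Iff.rfl

lemma two_E7 (w : V3) : (2 : ℤ) • w ∈ E7 := by
  rw [mem_E7]
  simp only [Pi.smul_apply, smul_eq_mul]
  exact ⟨w 0, by ring⟩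

lemma four_E7 {w : V3} {k : ℤ} (h : Pool.Agent.N609.CNF.ip g7 w w = k) : w ∈ E7 ↔ (4 : ℤ) ∣ k := by
  rw [mem_E7, Pool.Agent.N609.P17.four_sq (k := k) (x := w 0)
    (z := 2 * w 0 ^ 2 + w 1 ^ 2 + 2 * w 2 ^ 2 + w 1 * w 2)]
  rw [← h]
  simp only [Pool.Agent.N609.CNF.ip, g7]
  ring

lemma totE7 (n : ℕ) (hn : 0 < n) : ∃ κ K' : ℝ, ∀ t : ℝ, 0 < t → t ≤ 1 →
    ∃ s : ℝ, HasSum (fun k : ℕ =>
      ((if 4 ∣ k then (c7 n 0 k : ℤ) else 0 : ℤ) : ℝ) * Real.exp (-(t * k))) s ∧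
      |s - κ / t| ≤ K' * t := by
  obtain ⟨κ1, K1, h1⟩ := totalE dom7 two_E7 n hn
  refine ⟨κ1, K1, fun t ht ht1 => ?_⟩
  obtain ⟨s1, hs1, hb1⟩ := h1 t ht ht1
  refine ⟨s1, ?_, hb1⟩
  refine hs1.congr_fun fun k => ?_
  rw [Pool.Agent.N609.P17.cpE_ite (fun w k h => four_E7 h), c7_eq']
  split_ifs <;> push_cast <;> ring

/-! ### the class number formula for the number of vectors -/

lemma jac7_i {n : ℕ} (h : I7 n) : jacobiSym (n : ℤ) 7 = 1 ∧ jacobiSym (-(n : ℤ)) 7 = -1 := by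
  rw [jacobiSym.mod_left, jacobiSym.mod_left (-(n : ℤ))]
  unfold I7 at h
  rcases h with h | h | h
  · have e1 : (n : ℤ) % ((7 : ℕ) : ℤ) = 1 := by push_cast; omega
    have e2 : (-(n : ℤ)) % ((7 : ℕ) : ℤ) = 6 := by push_cast; omega
    rw [e1, e2]; norm_num
  · have e1 : (n : ℤ) % ((7 : ℕ) : ℤ) = 2 := by push_cast; omega
    have e2 : (-(n : ℤ)) % ((7 : ℕ) : ℤ) = 5 := by push_cast; omega
    rw [e1, e2]; norm_num
  · have e1 : (n : ℤ) % ((7 : ℕ) : ℤ) = 4 := by push_cast; omega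
    have e2 : (-(n : ℤ)) % ((7 : ℕ) : ℤ) = 3 := by push_cast; omega
    rw [e1, e2]; norm_num

/-- odd, `7` inert -/
theorem cn7_odd {n : ℕ} (hn : Squarefree n) (h4 : n % 4 = 3) (h7 : I7 n) :
    4 * HS n = (2 - ep2 n) * (vec7 n).card := by
  have hn0 : 0 < n := by omega
  have hF : Fn n := Or.inl ⟨hn, h4⟩
  have hj : jacobiSym ((7 : ℕ) : ℤ) n = -1 := by
    rw [jacobiSym.quadratic_reciprocity_three_mod_four (by norm_num) h4, (jac7_i h7).1]
  have key := final (q := 7) (n := n) 4 (by norm_num) (by norm_num) hn h4 hj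
    (fun k : ℕ => ((c7 n 0 k : ℤ) : ℝ)) (vec7 n).card ?_ ?_ (tot7 n hn0)
  · unfold ep2 HS
    exact_mod_cast key
  · simp only [c7_zero]
  · intro k hk
    have h := Pool.Agent.N970.P21G.pc7g (n1 := n) (n2 := k) (b := 0) (D := n * k) hF
      (fun h => by omega) h7
      (Nat.mul_pos hn0 (Nat.pos_of_ne_zero hk)) (by push_cast; ring)
    simp only [h]
    unfold L7 dt locq
    rw [if_neg (show ¬ 2 ∣ n by omega)]
    push_cast
    rfl

/-- odd, `7 ∣ n` -/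
theorem cn7_odd7 {n : ℕ} (hn : Squarefree n) (h4 : n % 4 = 3) (h7 : 7 ∣ n) :
    2 * HS n = (2 - ep2 n) * (vec7 n).card := by
  have hn0 : 0 < n := by omega
  have h25 : ¬ 7 * 7 ∣ n := fun h =>
    (by norm_num : Nat.Prime 7).one_lt.ne' (Nat.isUnit_iff.1 (hn 7 h))
  have key := finalR (q := 7) (n := n) 4 (by norm_num) hn h4 h7
    (fun k : ℕ => ((c7 n 0 k : ℤ) : ℝ)) (vec7 n).card ?_ ?_ (tot7 n hn0)
  · have h2 : (4 : ℤ) * HS n = 2 * ((2 - ep2 n) * (vec7 n).card) := by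
      unfold ep2 HS
      exact_mod_cast key
    linarith
  · simp only [c7_zero]
  · intro k hk
    have hD : 0 < n * k := Nat.mul_pos hn0 (Nat.pos_of_ne_zero hk)
    have h := Pool.Agent.N970.P21G.t_PC7r n k 0 (n * k) hn h4 h7 hD (by push_cast; ring)
    have h7D : 7 ∣ n * k := h7.mul_right k
    unfold L7r dt at h
    rw [if_pos h7D, if_neg (show ¬ 2 ∣ n by omega)] at h
    unfold locr
    have e : (c7 n 0 k : ℤ) = 4 * (if 7 ∣ n * k ∧ hh n (n * k) 7 = -1 then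
        tw n (n * k) * ∏ l ∈ ((n * k).primeFactors.erase 2).erase 7, fac n (n * k) l else 0) := by
      rcases Pool.Agent.N970.PCE.hh_pm (by norm_num) h25 h7 hD with hp | hp
      · rw [if_neg (fun hx => by rw [hp] at hx; norm_num at hx), h, hp]
        ring
      · rw [if_pos ⟨h7D, hp⟩, h, hp]
        ring
    simp only [e]
    push_cast
    rfl

/-- even, `7` inert -/
theorem cn7_even {n : ℕ} (hn : Ev n) (h7 : I7 n) :
    2 * ∑ u ∈ (range n).filter (fun u => 2 * u < n), chE n u = (vec7 n).card := by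
  have hn0 : 0 < n := Nat.pos_of_ne_zero (ev_ne hn)
  have key := finalE (q := 7) (n := n) 4 (by norm_num) (by norm_num) hn (jac7_i h7).2
    (by unfold I7 at h7; omega)
    (fun k : ℕ => ((if 4 ∣ k then (c7 n 0 k : ℤ) else 0 : ℤ) : ℝ)) (vec7 n).card ?_ ?_ ?_
    (totE7 n hn0)
  · have h2 : (4 : ℤ) * ∑ u ∈ (range n).filter (fun u => 2 * u < n), chE n u =
        2 * (vec7 n).card := by
      exact_mod_cast key
    linarith
  · simp only [dvd_zero, if_true, c7_zero]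
  · intro k hk h4
    have h := Pool.Agent.N970.P21G.t_PC7E n k 0 (n * k) hn h7 h4
      (Nat.mul_pos hn0 (Nat.pos_of_ne_zero hk)) (by push_cast; ring)
    have h2 : 2 ∣ n := by
      obtain ⟨M, rfl, -⟩ := hn
      exact ⟨2 * M, by ring⟩
    simp only [h4, if_true, h]
    unfold L7 dt locqE
    rw [if_pos h2]
    push_cast
    rfl
  · intro k h4
    simp only [h4, if_false, Int.cast_zero]

/-- even, `7 ∣ n` -/
theorem cn7_even7 {n : ℕ} (hn : Ev n) (h7 : 7 ∣ n) :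
    ∑ u ∈ (range n).filter (fun u => 2 * u < n), chE n u = (vec7 n).card := by
  have hn0 : 0 < n := Nat.pos_of_ne_zero (ev_ne hn)
  have h2 : 2 ∣ n := by
    obtain ⟨M, rfl, -⟩ := hn
    exact ⟨2 * M, by ring⟩
  have h25 : ¬ 7 * 7 ∣ n := by
    obtain ⟨M, rfl, hM, -⟩ := hn
    intro h9
    have h10 : 7 * 7 ∣ M := (by norm_num : Nat.Coprime (7 * 7) 4).dvd_of_dvd_mul_left h9
    exact (by norm_num : Nat.Prime 7).one_lt.ne' (Nat.isUnit_iff.1 (hM 7 h10))
  have key := finalRE (q := 7) (n := n) 4 (by norm_num) (by norm_num) hn h7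
    (fun k : ℕ => ((if 4 ∣ k then (c7 n 0 k : ℤ) else 0 : ℤ) : ℝ)) (vec7 n).card ?_ ?_ ?_
    (totE7 n hn0)
  · have h2 : (4 : ℤ) * ∑ u ∈ (range n).filter (fun u => 2 * u < n), chE n u =
        4 * (vec7 n).card := by
      exact_mod_cast key
    linarith
  · simp only [dvd_zero, if_true, c7_zero]
  · intro k hk h4
    have hD : 0 < n * k := Nat.mul_pos hn0 (Nat.pos_of_ne_zero hk)
    have h7D : 7 ∣ n * k := h7.mul_right k
    have h := Pool.Agent.N970.P21G.t_PC7rE n k 0 (n * k) hn h7 h4 hD (by push_cast; ring)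
    unfold L7r dt at h
    rw [if_pos h7D, if_pos h2] at h
    unfold locrE
    have e : (c7 n 0 k : ℤ) = 4 * (if 7 ∣ n * k ∧ hh n (n * k) 7 = -1 then
        tb 0 * ∏ l ∈ ((n * k).primeFactors.erase 2).erase 7, fac n (n * k) l else 0) := by
      rcases Pool.Agent.N970.PCE.hh_pm (by norm_num) h25 h7 hD with hp | hp
      · rw [if_neg (fun hx => by rw [hp] at hx; norm_num at hx), h, hp]
        ring
      · rw [if_pos ⟨h7D, hp⟩, h, hp]
        ring
    simp only [h4, if_true, e]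
    push_cast
    rfl
  · intro k h4
    simp only [h4, if_false, Int.cast_zero]

lemma ep2_ne (n : ℕ) : 2 - ep2 n ≠ 0 := by
  unfold ep2
  split_ifs <;> norm_num

/-- **CN7** -/
theorem t_CN7 : S_CN7 := by
  intro m hm
  rcases hm with ⟨h1, h2, h3, h4⟩ | ⟨h1, h2, h3⟩
  · have e1 := cn_odd h1 h2 h4
    have e2 := cn7_odd7 h1 h2 h3
    apply mul_left_cancel₀ (ep2_ne m)
    linear_combination 6 * e2 - e1
  · have e1 := cn_even h1 h3
    have e2 := cn7_even7 h1 h2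
    linear_combination 6 * e2 - e1

/-! ### the boundary terms -/

/-- the boundary terms, `7` inert in `ℚ(√(-A m))` -/
theorem bd7 {A m : ℕ} (hA : Fd A) (hm : Fn m) (hc : Nat.Coprime A m) (h7 : I7 (A * m)) :
    ((vec7 (A * m : ℕ)).card : ℤ) = 2 * ∑ u ∈ un m, chM m u * bdE A u m := by
  have hP : Pool.Agent.N973.P15G.Ps A := by
    rcases hA with ⟨h1, h2 | h2⟩
    · exact Or.inl ⟨h2.1, h2.2, h1⟩
    · exact Or.inr h2
  have hM : Pool.Agent.N973.P15G.Ng m := hm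
  rw [bd_CG hP hM hc]
  by_cases he : 2 ∣ A ∨ 2 ∣ m
  · rw [← cn7_even (prod_even hP hM hc he) h7, ← CG_even hP hM hc he]
  · push Not at he
    have h1 := CG_odd hP hM hc he.1 he.2
    obtain ⟨h2, h4⟩ := prod_odd hP hM hc he.1 he.2
    have h5 := cn7_odd h2 h4 h7
    apply mul_left_cancel₀ (ep2_ne (A * m))
    rw [← h5, ← h1]
    ring

end Pool.Agent.N971.P21G
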