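import Pool.Agent.N971.P21G.X7a
import Pool.Agent.N971.P21G.Bil3
import Pool.Agent.N971.P21G.Cnf7
import Pool.Agent.N218.P15G.Eis
import Pool.Agent.N575.P21G.Stm

/-!
# X7: the unweighted signed pair sums of the lattice ramified at `7` vanish (project P21G)
-/

set_option autoImplicit false

namespace Pool.Agent.N971.P21G.X

open Finset
open Pool.Agent.N969.P15 (V3 un Ev c2)
open Pool.Agent.N969.P17G (chM chP sgnE bdE sgp sg2)
open Pool.Agent.N969.RQ (Fd ip7 vec7 c7 ud)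
open Pool.Agent.N973.P15G (Fx)
open Pool.Agent.N970.P21G (mem7 pc7g)
open Pool.Agent.N970.RQ (wot7 wot7_wot7)
open Pool.Agent.N975.P21G (Pp E_ex has mem_rot mem_wot mem_neg)
open Pool.Agent.N877.P21G (Fn I7 L7 L7r dt Wd X7 pd)
open Pool.Agent.N816.Xn (w7 c1_7 low7 Fd_Ps chM_seven end_zero end_top pair_sum sum_T7 ip7_eq
  ip7_eq_neg mem_vec7 neg_mem7)
open Pool.Agent.N971.P21G.B3 (sum_inv T_spec det)

/-! ### the sum over the cusps -/

theorem low_i {A m : ℕ} (hA : Fd A) (hA7 : jacobiSym A 7 = 1) (hm : Fn m) (hm7 : I7 m) :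
    ∑ u ∈ un m, chM m u * Fx w7 A u m = ∑ u ∈ un m, chM m u * bdE A u m := by
  have h7A : ¬ 7 ∣ A := Pool.Agent.N877.P21G.jac7 (by norm_num) hA7
  have hm0 : 0 < m := Pool.Agent.N877.P21G.Fn.pos hm
  obtain ⟨l, hM⟩ := Pool.Agent.N971.P15G.shM (m := m) hm
  have hchr := Pool.Agent.N809.PG.chr_M hM
  have hneg := Pool.Agent.N809.PG.neg_M hM
  have h77 := chM_seven hm hm7
  refine Pool.Agent.N218.P15G.sum_low (A := A) hm (fun x => Fx w7 A x m) (fun x => bdE A x m) (-7)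
    ?_ ?_ ?_
  · rw [IsCoprime.neg_left_iff, Int.isCoprime_iff_gcd_eq_one]
    have : Nat.Coprime 7 m := by
      refine (Nat.Prime.coprime_iff_not_dvd (by norm_num)).2 ?_
      unfold I7 at hm7
      omega
    exact this
  · have e : (-7 : ℤ) = (-1) * 7 := by norm_num
    rw [e, hchr.mul, h77, hneg]
    norm_num
  · intro x y h
    have h1 := low7 A (Fd_Ps hA) h7A x y m (by exact_mod_cast hm0) (by
      have := dvd_neg.2 h
      have e : -(-7 * (x * y) - 1) = 7 * x * y + 1 := by ring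
      rwa [e] at this)
    rw [hA7, one_mul] at h1
    exact h1

theorem low_r {A m : ℕ} (hA : Fd A) (h7A : ¬ 7 ∣ A) (hm : Fn m) (h7m : 7 ∣ m) :
    ∑ u ∈ un m, chM m u * Fx w7 A u m = ∑ u ∈ un m, chM m u * bdE A u m := by
  have hm0 : 0 < m := Pool.Agent.N877.P21G.Fn.pos hm
  refine Pool.Agent.N218.P15G.sum_low (A := A) hm (fun x => Fx w7 A x m) (fun x => bdE A x m) 1
    isCoprime_one_left (Pool.Agent.N218.P15G.chr_M hm).one ?_
  intro x y h
  rw [one_mul] at h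
  exact Pool.Agent.N975.Ph.low_inf (A := A) (p := 7) hA (by norm_num) (by norm_num) h7A
    Pool.Agent.N975.Ph.no7 (by exact_mod_cast hm0) (by exact_mod_cast h7m) h

/-- the boundary terms, `7 ∣ n` -/
theorem bd7r {A m : ℕ} (hA : Fd A) (hm : Fn m) (hc : Nat.Coprime A m) (h7 : 7 ∣ A * m) :
    ((vec7 (A * m : ℕ)).card : ℤ) = ∑ u ∈ un m, chM m u * bdE A u m := by
  have hP : Pool.Agent.N973.P15G.Ps A := Fd_Ps hA
  have hM : Pool.Agent.N973.P15G.Ng m := hm
  rw [Pool.Agent.N971.P15G.bd_CG hP hM hc]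
  by_cases he : 2 ∣ A ∨ 2 ∣ m
  · rw [← cn7_even7 (Pool.Agent.N971.P15G.prod_even hP hM hc he) h7,
      ← Pool.Agent.N971.P15G.CG_even hP hM hc he]
  · push Not at he
    have h1 := Pool.Agent.N971.P15G.CG_odd hP hM hc he.1 he.2
    obtain ⟨h2, h4⟩ := Pool.Agent.N971.P15G.prod_odd hP hM hc he.1 he.2
    have h5 := cn7_odd7 h2 h4 h7
    apply mul_left_cancel₀ (ep2_ne (A * m))
    rw [← h5, ← h1]
    ring

/-! ### the pairs -/

/-- the complete sum, any values at the ends -/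
theorem pair_sum' {n : ℕ} (hn : 0 < n) (f : ℤ → ℤ) :
    ∑ v ∈ vec7 n, ∑ w ∈ vec7 n, f ((n + ip7 v w) / 2) =
      ∑ T ∈ (range n).filter (fun T => 0 < T), f T * (c7 n (2 * T - n) n : ℤ) +
        (f 0 + f n) * (vec7 n).card := by
  rw [sum_T7]
  have e : ∀ v ∈ vec7 (n : ℤ), ∀ w ∈ vec7 (n : ℤ), f ((n + ip7 v w) / 2) =
      (if ip7 v w ≠ n ∧ ip7 v w ≠ -n then f ((n + ip7 v w) / 2) else 0) +
        ((if w = v then f n else 0) + if w = -v then f 0 else 0) := by
    intro v hv w hw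
    have hv' := mem_vec7.1 hv
    have hw' := mem_vec7.1 hw
    have k1 := ip7_eq hv' hw'
    have k2 := ip7_eq_neg hv' hw'
    by_cases c1 : ip7 v w = n
    · have c2 : ¬ ip7 v w = -n := by omega
      rw [if_neg (fun h => h.1 c1), if_pos (k1.1 c1), if_neg (fun h => c2 (k2.2 h)), c1,
        show ((n : ℤ) + n) / 2 = n by omega]
      ring
    · by_cases c2 : ip7 v w = -n
      · rw [if_neg (fun h => h.2 c2), if_neg (fun h => c1 (k1.2 h)), if_pos (k2.1 c2), c2,
          show ((n : ℤ) + -n) / 2 = 0 by omega]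
        ring
      · rw [if_pos ⟨c1, c2⟩, if_neg (fun h => c1 (k1.2 h)), if_neg (fun h => c2 (k2.2 h))]
        ring
  rw [Finset.sum_congr rfl fun v hv => Finset.sum_congr rfl fun w hw => e v hv w hw]
  simp only [Finset.sum_add_distrib]
  congr 1
  have e2 : ∑ v ∈ vec7 (n : ℤ), ∑ w ∈ vec7 (n : ℤ), (if w = v then f n else 0) =
      f n * (vec7 (n : ℤ)).card := by
    rw [mul_comm, ← nsmul_eq_mul, ← Finset.sum_const]
    refine Finset.sum_congr rfl fun v hv => ?_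
    rw [Finset.sum_ite_eq', if_pos hv]
  have e3 : ∑ v ∈ vec7 (n : ℤ), ∑ w ∈ vec7 (n : ℤ), (if w = -v then f 0 else 0) =
      f 0 * (vec7 (n : ℤ)).card := by
    rw [mul_comm, ← nsmul_eq_mul, ← Finset.sum_const]
    refine Finset.sum_congr rfl fun v hv => ?_
    rw [Finset.sum_ite_eq', if_pos (neg_mem7 hv)]
  rw [e2, e3]
  ring

/-- half of the pairs -/
theorem half {A m : ℕ} (h : Pp A m) (h7 : ¬ 7 ∣ A) (hn7 : ¬ 7 ∣ A * m) :
    2 * ∑ v ∈ vec7 ((A * m : ℕ) : ℤ), ∑ w ∈ vec7 ((A * m : ℕ) : ℤ),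
      (if (7 : ℤ) ∣ ((A * m : ℕ) + ip7 v w) / 2 then
        sgnE 1 A (A * m) (((A * m : ℕ) + ip7 v w) / 2) else 0) = X7 A (A * m) := by
  obtain ⟨E, h1, h2, hneg, -, -⟩ := E_ex h h7
  obtain ⟨n, hn⟩ : ∃ n, n = A * m := ⟨_, rfl⟩
  unfold X7
  rw [← hn] at h2 hneg hn7 ⊢
  rw [Finset.mul_sum]
  refine Finset.sum_congr rfl fun v hv => ?_
  rw [two_mul]
  nth_rewrite 2 [← sum_inv (V := vec7 (n : ℤ)) (fun w => -w)
    (fun w hw => mem_neg hw) (fun w => neg_neg w)]
  rw [← Finset.sum_add_distrib]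
  refine Finset.sum_congr rfl fun w hw => ?_
  obtain ⟨T, t1, t2, t3, t4⟩ := T_spec hv hw
  have hs : sgnE 1 A n ((n + ip7 v (-w)) / 2) = sgnE 1 A n ((n + ip7 v w) / 2) := by
    rw [h2 v hv (-w) (mem_neg hw), h2 v hv w hw, hneg w hw]
  rw [hs, t2, t1]
  have p7 : Prime (7 : ℤ) := Nat.prime_iff_prime_int.1 (by norm_num)
  have h7n : ¬ (7 : ℤ) ∣ n := by exact_mod_cast hn7
  rcases p7.dvd_mul.1 t4 with c7 | c7
  · rw [if_pos c7, if_neg (fun h => h7n (by
      have := dvd_add h c7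
      rwa [sub_add_cancel] at this)), add_zero]
  · rw [if_neg (fun h => h7n (by
      have := dvd_add c7 h
      rwa [sub_add_cancel] at this)), if_pos c7, zero_add]

theorem four_dvd {n : ℕ} (hn : Fn n) (h : 2 ∣ n) : 4 ∣ n := by
  obtain ⟨M, hM, -⟩ := Pool.Agent.N871.G21.Fn_two hn h
  exact ⟨M, hM⟩

/-- `7` inert in both fields -/
theorem x_i {A m : ℕ} (hA : Fd A) (hm : Fn m) (hc : Nat.Coprime A m) (hA7 : jacobiSym A 7 = 1)
    (hm7 : I7 m) : X7 A (A * m) = 0 := by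
  classical
  have h : Pp A m := ⟨Or.inr hA, hm, hc⟩
  have h7A : ¬ 7 ∣ A := Pool.Agent.N877.P21G.jac7 (by norm_num) hA7
  have hI : I7 (A * m) := Pool.Agent.N816.Xn.I7_mul hA7 hm7
  have hn7 : ¬ 7 ∣ A * m := by
    unfold I7 at hI
    omega
  have hn0 : 0 < A * m := Pool.Agent.N877.P21G.Fn.pos h.n
  have hcnf := bd7 hA hm hc hI
  rw [← low_i hA hA7 hm hm7, c1_7 hA hm hc h7A] at hcnf
  rw [← half h h7A hn7, pair_sum' hn0 (fun T : ℤ => if (7 : ℤ) ∣ T then sgnE 1 A (A * m) T else 0)]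
  have h7n : ¬ (7 : ℤ) ∣ (A * m : ℕ) := by exact_mod_cast hn7
  have e0 : sgnE 1 A (A * m) 0 = 1 := end_zero (Or.inr hA) hm hc
  simp only [dvd_zero, if_true, if_neg h7n, e0]
  have e1 : ∑ T ∈ (range (A * m)).filter (fun T => 0 < T), (if (7 : ℤ) ∣ (T : ℤ) then
      sgnE 1 A (A * m) T else 0) * (c7 (A * m : ℕ) (2 * T - (A * m : ℕ)) (A * m : ℕ) : ℤ) =
      -4 * ∑ T ∈ range (A * m), Wd (fun _ => True) (7 ∣ ·) A m (A * m - T) T := by
    rw [Finset.sum_filter, Finset.mul_sum]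
    refine Finset.sum_congr rfl fun T hT => ?_
    rw [Finset.mem_range] at hT
    by_cases h0 : 0 < T
    · rw [if_pos h0]
      by_cases h5 : 7 ∣ T
      · have h5' : (7 : ℤ) ∣ (T : ℤ) := by exact_mod_cast h5
        rw [if_pos h5', c2_i (Or.inr hA) hm hc hI h0 hT h5,
          pc7g h.n (four_dvd h.n) hI (D := 4 * (A * m - T) * T)
          (Nat.mul_pos (Nat.mul_pos (by norm_num) (by omega)) h0) (det hT)]
        ring
      · have h5' : ¬ (7 : ℤ) ∣ (T : ℤ) := by exact_mod_cast h5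
        rw [if_neg h5', zero_mul]
        unfold Wd
        rw [Finset.filter_false_of_mem (s := T.divisors)]
        · simp
        · intro a ha h6
          exact h5 (h6.trans (Nat.dvd_of_mem_divisors ha))
    · have : T = 0 := by omega
      subst this
      rw [if_neg h0]
      unfold Wd
      simp
  rw [e1]
  linear_combination 2 * hcnf

/-- `7 ∣ m` -/
theorem x_r {A m : ℕ} (hA : Fd A) (hm : Fn m) (hc : Nat.Coprime A m) (h7A : ¬ 7 ∣ A)
    (h7m : 7 ∣ m) : X7 A (A * m) = 0 := by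
  classical
  have h : Pp A m := ⟨Or.inr hA, hm, hc⟩
  have hn7 : 7 ∣ A * m := h7m.mul_left A
  have hn0 : 0 < A * m := Pool.Agent.N877.P21G.Fn.pos h.n
  have hcnf := bd7r hA hm hc hn7
  rw [← low_r hA h7A hm h7m, c1_7 hA hm hc h7A] at hcnf
  have hX : X7 A (A * m) = _ := pair_sum hn0 (fun T : ℤ => sgnE 1 A (A * m) T)
    (end_zero (Or.inr hA) hm hc) (end_top (Or.inr hA) hm hc)
  rw [hX]
  have e1 : ∑ T ∈ (range (A * m)).filter (fun T => 0 < T), sgnE 1 A (A * m) T *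
      (c7 (A * m : ℕ) (2 * T - (A * m : ℕ)) (A * m : ℕ) : ℤ) =
      -4 * ∑ T ∈ range (A * m), Wd (fun _ => True) (7 ∣ ·) A m (A * m - T) T := by
    rw [Finset.sum_filter, Finset.mul_sum]
    refine Finset.sum_congr rfl fun T hT => ?_
    rw [Finset.mem_range] at hT
    by_cases h0 : 0 < T
    · rw [if_pos h0]
      have hD : 0 < 4 * (A * m - T) * T :=
        Nat.mul_pos (Nat.mul_pos (by norm_num) (by omega)) h0
      have hcc : (c7 (A * m : ℕ) (2 * T - (A * m : ℕ)) (A * m : ℕ) : ℤ) =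
          2 * L7r (A * m) (2 * T - (A * m : ℕ)) (4 * (A * m - T) * T) := by
        rcases h.n with h4 | h4
        · exact Pool.Agent.N970.P21G.t_PC7r _ _ _ _ h4.1 h4.2 hn7 hD (det hT)
        · refine Pool.Agent.N970.P21G.t_PC7rE _ _ _ _ h4 hn7 ?_ hD (det hT)
          obtain ⟨M, hM, -⟩ := h4
          exact ⟨M, hM⟩
      have hW := c2_r (Or.inr hA) hm hc h7A h7m h0 hT
      rw [hcc]
      linear_combination (2 : ℤ) * hW
    · have : T = 0 := by omega
      subst this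
      rw [if_neg h0]
      unfold Wd
      simp
  rw [e1]
  linear_combination 2 * hcnf

/-- a sign function with vanishing sum -/
theorem x_of {n A : ℕ} (E : V3 → ℤ) (h2 : ∀ v ∈ vec7 (n : ℤ), ∀ w ∈ vec7 (n : ℤ),
    sgnE 1 A n ((n + ip7 v w) / 2) = E v * E w) (f : V3 → V3)
    (hf : ∀ v ∈ vec7 (n : ℤ), f v ∈ vec7 (n : ℤ)) (hff : ∀ v, f (f v) = v)
    (hE : ∀ v ∈ vec7 (n : ℤ), E (f v) = -E v) : X7 A n = 0 := by
  have e := sum_inv f hf hff E
  rw [Finset.sum_congr rfl fun v hv => hE v hv, Finset.sum_neg_distrib] at e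
  have s0 : ∑ v ∈ vec7 (n : ℤ), E v = 0 := by linarith
  unfold X7
  rw [Finset.sum_congr rfl fun v hv => Finset.sum_congr rfl fun w hw => h2 v hv w hw,
    ← Finset.sum_mul_sum, s0, zero_mul]

theorem x_neg {A m : ℕ} (h : Pp A m) (h7 : jacobiSym A 7 = -1) : X7 A (A * m) = 0 := by
  obtain ⟨E, h1, h2, -, -, hwot⟩ := E_ex h (Pool.Agent.N877.P21G.jac7 (by norm_num) h7)
  exact x_of E h2 wot7 (fun v hv => mem_wot hv) wot7_wot7 fun v hv => by
    rw [hwot v hv, h7]; ring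

/-- the sign of `-v` -/
theorem x_zero {n A : ℕ} (hn : Fn n) (hA : A ∣ n) (h7 : ¬ 7 ∣ A) (h0 : sgnE 1 A n 0 = -1) :
    X7 A n = 0 := by
  obtain ⟨E, h1, h2⟩ := has hn hA h7
  refine x_of E h2 (fun v => -v) (fun v hv => mem_neg hv) (fun v => neg_neg v) fun v hv => ?_
  have h3 := h2 v hv (-v) (mem_neg hv)
  have h4 : ((n : ℤ) + ip7 v (-v)) / 2 = 0 := by
    rw [Pool.Agent.N816.Xn.ip7_neg, mem7.1 hv]
    omega
  rw [h4, h0] at h3
  have h5 : E v * E v = 1 := by rcases h1 v with h | h <;> rw [h] <;> norm_num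
  linear_combination (-E v) * h3 - E (-v) * h5

/-- the value at `0` -/
theorem sgn_zero (n A : ℕ) : sgnE 1 A n 0 = ∏ p ∈ A.primeFactors,
    Pool.Agent.N295.P15.E.kq n p := by
  unfold sgnE
  refine Finset.prod_congr rfl fun p hp => ?_
  have hpp := Nat.prime_of_mem_primeFactors hp
  unfold Pool.Agent.N295.P15.E.kq
  by_cases h2 : p = 2
  · rw [if_pos h2, if_pos h2, sg2, if_pos rfl]
    norm_num
  · rw [if_neg h2, if_neg h2, sgp, if_pos (dvd_zero _), Int.zero_ediv, if_pos (dvd_zero _)]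
    push_cast
    exact jacobiSym.at_neg_one (hpp.odd_of_ne_two h2)

/-- the bad unitary divisors -/
theorem bad {M N : ℕ} (hM : Squarefree (2 * M)) (hNM : N ∣ M) (h1 : (M / N) % 4 = 1) :
    sgnE 1 (8 * N) (8 * M) 0 = -1 := by
  have hMo : ¬ 2 ∣ M := by
    rintro ⟨k, rfl⟩
    have := Nat.isUnit_iff.1 (hM 2 ⟨k, by ring⟩)
    omega
  obtain ⟨k, rfl⟩ := hNM
  have hN0 : 0 < N := Nat.pos_of_ne_zero (by rintro rfl; exact hMo (by simp))
  rw [Nat.mul_div_cancel_left _ hN0] at h1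
  have hNo : ¬ 2 ∣ N := fun h => hMo (h.mul_right k)
  have hNs : Squarefree N := hM.squarefree_of_dvd ⟨2 * k, by ring⟩
  rw [sgn_zero]
  have e : (8 * N).primeFactors = insert 2 N.primeFactors := by
    rw [Nat.primeFactors_mul (by norm_num) hN0.ne', show 8 = 2 ^ 3 by norm_num,
      Nat.primeFactors_prime_pow (by norm_num) Nat.prime_two]
    rfl
  rw [e, Finset.prod_insert (fun h => hNo (Nat.dvd_of_mem_primeFactors h)),
    Pool.Agent.N871.G21.chi_prod hNs _ hNo]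
  unfold Pool.Agent.N295.P15.E.kq
  rw [if_pos rfl]
  have hmod : (N * k) % 4 = N % 4 := by
    rw [Nat.mul_mod, h1]
    omega
  have h4 : N % 4 = 1 ∨ N % 4 = 3 := by omega
  unfold c2
  rw [if_neg (by norm_num), if_neg (by omega : ¬ 8 * (N * k) % 16 = 4)]
  rcases h4 with h4 | h4
  · rw [if_pos (by omega : 8 * (N * k) % 32 = 8), if_neg (by norm_num),
      ZMod.χ₄_nat_one_mod_four h4]
    norm_num
  · rw [if_neg (by omega : ¬ 8 * (N * k) % 32 = 8), if_pos (by norm_num),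
      ZMod.χ₄_nat_three_mod_four h4]
    norm_num

/-- the unitary divisors: the cofactor is a negative discriminant or the sign of `-v` is `-1` -/
theorem cofac {n A : ℕ} (hn : Fn n) (hA : A ∈ pd n) (h1 : A ≠ 1) :
    (Fd A ∧ Nat.Coprime A (n / A) ∧ A * (n / A) = n ∧ ¬ 7 ∣ A) ∧
      (Fn (n / A) ∨ sgnE 1 A n 0 = -1) := by
  classical
  unfold pd at hA
  rw [Finset.mem_filter] at hA
  obtain ⟨hu, hA1, h7⟩ := hA
  unfold ud at hu
  rw [Finset.mem_filter, Nat.mem_divisors] at hu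
  obtain ⟨⟨hd, hn0⟩, hc⟩ := hu
  have hF : Fd A := hA1.resolve_left h1
  have hA0 : 0 < A := by have := hF.1; omega
  have hmul : A * (n / A) = n := Nat.mul_div_cancel' hd
  refine ⟨⟨hF, hc, hmul, h7⟩, ?_⟩
  obtain ⟨m, hm⟩ : ∃ m, m = n / A := ⟨_, rfl⟩
  rw [← hm] at hc hmul ⊢
  rcases hn with ⟨hs, h4⟩ | ⟨M, hM, hs, h4⟩
  · left
    left
    have hs' : Squarefree m := hs.squarefree_of_dvd ⟨A, by rw [← hmul]; ring⟩
    refine ⟨hs', ?_⟩
    rcases hF.2 with ⟨-, h5⟩ | ⟨M, hM, -⟩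
    · have e : (A * m) % 4 = 3 := by rw [hmul]; exact h4
      rw [Nat.mul_mod, h5] at e
      omega
    · exfalso
      have : (A * m) % 4 = 3 := by rw [hmul]; exact h4
      rw [hM, mul_assoc] at this
      omega
  · rcases hF.2 with ⟨hAs, h5⟩ | ⟨M', hM', hs', h5⟩
    · left
      right
      have h2A : Nat.Coprime A 4 := by
        rw [Nat.coprime_comm]
        have h2 : Nat.Coprime 2 A := (Nat.Prime.coprime_iff_not_dvd Nat.prime_two).2 (by omega)
        exact Nat.Coprime.pow_left 2 h2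
      obtain ⟨m', hm'⟩ : 4 ∣ m := by
        have h6 : 4 ∣ A * m := by rw [hmul, hM]; exact ⟨M, rfl⟩
        exact h2A.symm.dvd_of_dvd_mul_left h6
      have e : M = A * m' := by
        rw [hm'] at hmul
        have : 4 * M = 4 * (A * m') := by rw [← hM, ← hmul]; ring
        omega
      refine ⟨m', hm', hs.squarefree_of_dvd ⟨A, by rw [e]; ring⟩, ?_⟩
      have e2 : M % 4 = m' % 4 := by rw [e, Nat.mul_mod, h5]; omega
      omega
    · have e : M = M' * m := by
        have : 4 * M = 4 * (M' * m) := by rw [← hM, ← hmul, hM']; ring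
        omega
      have hmo : m % 2 = 1 := by
        by_contra h6
        have h7 : 2 ∣ m := by omega
        have h8 : 2 ∣ A := by rw [hM']; exact ⟨2 * M', by ring⟩
        have := Nat.dvd_gcd h8 h7
        rw [hc] at this
        omega
      have hms : Squarefree m := hs.squarefree_of_dvd ⟨M', by rw [e]; ring⟩
      by_cases h6 : m % 4 = 3
      · exact Or.inl (Or.inl ⟨hms, h6⟩)
      · right
        have h7' : m % 4 = 1 := by omega
        have e2 : M % 4 = M' % 4 := by rw [e, Nat.mul_mod, h7']; omega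
        obtain ⟨N, hN⟩ : ∃ N, M' = 2 * N := ⟨M' / 2, by omega⟩
        have e3 : n = 8 * (N * m) := by rw [← hmul, hM', hN]; ring
        have e4 : A = 8 * N := by rw [hM', hN]; ring
        have hN0 : 0 < N := by
          rcases Nat.eq_zero_or_pos N with h | h
          · rw [h] at e4; omega
          · exact h
        rw [e3, e4]
        refine bad ?_ (Dvd.intro m rfl) ?_
        · have e5 : 2 * (N * m) = M := by rw [e, hN]; ring
          rw [e5]
          exact hs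
        · rw [Nat.mul_div_cancel_left _ hN0]
          exact h7'

theorem jac_split {n : ℕ} (h : ¬ I7 n) (h7 : ¬ 7 ∣ n) {v : V3} (hv : ip7 v v = n) : False := by
  have e : ip7 v v = (2 * v 1 + v 2) ^ 2 + 7 * (v 0 ^ 2 + v 2 ^ 2) := by
    unfold ip7
    ring
  have h5 : ((2 * v 1 + v 2) ^ 2) % 7 = (n : ℤ) % 7 := by
    rw [← hv, e]
    omega
  generalize 2 * v 1 + v 2 = x at h5
  have h6 : x % 7 = 0 ∨ x % 7 = 1 ∨ x % 7 = 2 ∨ x % 7 = 3 ∨ x % 7 = 4 ∨ x % 7 = 5 ∨ x % 7 = 6 := by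
    omega
  unfold I7 at h
  rw [pow_two, Int.mul_emod] at h5
  rcases h6 with h6 | h6 | h6 | h6 | h6 | h6 | h6 <;> rw [h6] at h5 <;> norm_num at h5 <;> omega

/-- **X7** -/
theorem t_X7 : Pool.Agent.N575.P21G.S_X7 := by
  intro n A hn hA h1
  obtain ⟨⟨hF, hc, hmul, h7⟩, hco⟩ := cofac hn hA h1
  rcases hco with hm | h0
  swap
  · exact x_zero hn ⟨n / A, hmul.symm⟩ h7 h0
  obtain ⟨m, hm'⟩ : ∃ m, m = n / A := ⟨_, rfl⟩
  rw [← hm'] at hc hmul hm
  subst hmul
  have hp : Pp A m := ⟨Or.inr hF, hm, hc⟩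
  have hj : jacobiSym A 7 = 1 ∨ jacobiSym A 7 = -1 := by
    apply jacobiSym.eq_one_or_neg_one
    rw [Int.gcd_natCast_natCast]
    exact ((Nat.Prime.coprime_iff_not_dvd (by norm_num)).2 h7).symm
  rcases hj with hj | hj
  swap
  · exact x_neg hp hj
  by_cases h7m : 7 ∣ m
  · exact x_r hF hm hc h7 h7m
  · by_cases hI : I7 m
    · exact x_i hF hm hc hj hI
    · have hI' : ¬ I7 (A * m) := by
        intro h
        apply hI
        have h8 := Pool.Agent.N816.Xn.jac7_one hj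
        unfold I7 at h ⊢
        rw [Nat.mul_mod] at h
        have h9 : m % 7 < 7 := Nat.mod_lt _ (by norm_num)
        rcases h8 with h8 | h8 | h8 <;> rw [h8] at h <;> omega
      have h7n : ¬ 7 ∣ A * m := by
        intro h
        rcases (Nat.Prime.dvd_mul (by norm_num)).1 h with h | h
        · exact h7 h
        · exact h7m h
      have he : vec7 ((A * m : ℕ) : ℤ) = ∅ := by
        rw [Finset.eq_empty_iff_forall_notMem]
        intro v hv
        exact jac_split hI' h7n (mem7.1 hv)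
      unfold X7
      rw [he, Finset.sum_empty]

end Pool.Agent.N971.P21G.X
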