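import Pool.Agent.N877.P21G.Defs

/-!
# HE7 of project P21G: the Hecke relations at `2` for the lattice of discriminant `7`

The three similitudes of norm `4` (one for each left ideal of norm `2`) are involutions up to the
factor `4`.
-/

set_option autoImplicit false

namespace Pool.Agent.N971.P21G

open Finset
open Pool.Agent.N969.P15 (V3 ep2)
open Pool.Agent.N969.RQ (ip7 vec7)
open Pool.Agent.N877.P21G (S_HE7)

theorem ext3 {v w : V3} (h0 : v 0 = w 0) (h1 : v 1 = w 1) (h2 : v 2 = w 2) : v = w := by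
  funext i
  fin_cases i
  · exact h0
  · exact h1
  · exact h2

theorem sq_le7 (v : V3) (i : Fin 3) : v i ^ 2 ≤ ip7 v v := by
  fin_cases i
  · show v 0 ^ 2 ≤ ip7 v v
    unfold ip7
    nlinarith [sq_nonneg (v 0), sq_nonneg (v 1 + v 2), sq_nonneg (v 1), sq_nonneg (v 2)]
  · show v 1 ^ 2 ≤ ip7 v v
    unfold ip7
    nlinarith [sq_nonneg (v 0), sq_nonneg (v 1 + v 2), sq_nonneg (v 1), sq_nonneg (v 2)]
  · show v 2 ^ 2 ≤ ip7 v v
    unfold ip7
    nlinarith [sq_nonneg (v 0), sq_nonneg (v 1 + v 2), sq_nonneg (v 1), sq_nonneg (v 2)]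

theorem mem7 {n : ℤ} {v : V3} : v ∈ vec7 n ↔ ip7 v v = n := by
  unfold vec7
  rw [mem_filter, Fintype.mem_piFinset]
  constructor
  · exact fun h => h.2
  · intro h
    refine ⟨fun i => ?_, h⟩
    have h1 := sq_le7 v i
    rw [h] at h1
    rw [mem_Icc]
    constructor
    · nlinarith [Int.le_self_sq (-(v i)), sq_nonneg (v i)]
    · nlinarith [Int.le_self_sq (v i), sq_nonneg (v i)]

/-- the three similitudes -/
def mA (v : V3) : V3 := ![-2 * v 0, 2 * v 1, -v 1 - 2 * v 2]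
def mB (v : V3) : V3 := ![-2 * v 0, v 1 + 3 * v 2, v 1 - v 2]
def mC (v : V3) : V3 := ![-2 * v 2, v 0 - 2 * v 1 - v 2, -2 * v 0]

@[simp] theorem mA_0 (v : V3) : mA v 0 = -2 * v 0 := rfl
@[simp] theorem mA_1 (v : V3) : mA v 1 = 2 * v 1 := rfl
@[simp] theorem mA_2 (v : V3) : mA v 2 = -v 1 - 2 * v 2 := rfl
@[simp] theorem mB_0 (v : V3) : mB v 0 = -2 * v 0 := rfl
@[simp] theorem mB_1 (v : V3) : mB v 1 = v 1 + 3 * v 2 := rfl
@[simp] theorem mB_2 (v : V3) : mB v 2 = v 1 - v 2 := rfl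
@[simp] theorem mC_0 (v : V3) : mC v 0 = -2 * v 2 := rfl
@[simp] theorem mC_1 (v : V3) : mC v 1 = v 0 - 2 * v 1 - v 2 := rfl
@[simp] theorem mC_2 (v : V3) : mC v 2 = -2 * v 0 := rfl

/-- a similitude which is an involution up to the factor `4` -/
structure Sm (m : V3 → V3) : Prop where
  ip : ∀ v, ip7 (m v) (m v) = 4 * ip7 v v
  sq : ∀ v, m (m v) = fun i => 4 * v i
  lin : ∀ v : V3, m (fun i => 4 * v i) = fun i => 4 * m v i

theorem smA : Sm mA where
  ip := fun v => by simp only [ip7, mA_0, mA_1, mA_2]; ring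
  sq := fun v => ext3 (by simp; ring) (by simp; ring) (by simp; ring)
  lin := fun v => ext3 (by simp; ring) (by simp; ring) (by simp; ring)

theorem smB : Sm mB where
  ip := fun v => by simp only [ip7, mB_0, mB_1, mB_2]; ring
  sq := fun v => ext3 (by simp; ring) (by simp; ring) (by simp; ring)
  lin := fun v => ext3 (by simp; ring) (by simp; ring) (by simp; ring)

theorem smC : Sm mC where
  ip := fun v => by simp only [ip7, mC_0, mC_1, mC_2]; ring
  sq := fun v => ext3 (by simp; ring) (by simp; ring) (by simp; ring)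
  lin := fun v => ext3 (by simp; ring) (by simp; ring) (by simp; ring)

/-- the image -/
def Im (m : V3 → V3) (w : V3) : Prop := (4 : ℤ) ∣ m w 0 ∧ (4 : ℤ) ∣ m w 1 ∧ (4 : ℤ) ∣ m w 2

instance (m : V3 → V3) : DecidablePred (Im m) := fun w => by unfold Im; infer_instance

theorem card_Im {m : V3 → V3} (h : Sm m) (n : ℤ) :
    ((vec7 (4 * n)).filter (Im m)).card = (vec7 n).card := by
  symm
  refine card_bij (fun v _ => m v) ?_ ?_ ?_
  · intro v hv
    rw [mem7] at hv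
    rw [mem_filter, mem7, h.ip, hv]
    refine ⟨rfl, ?_⟩
    unfold Im
    rw [h.sq]
    exact ⟨⟨_, rfl⟩, ⟨_, rfl⟩, ⟨_, rfl⟩⟩
  · intro v _ w _ hvw
    have h1 := congrArg m hvw
    rw [h.sq, h.sq] at h1
    funext i
    have h8 : 4 * v i = 4 * w i := congrFun h1 i
    omega
  · intro w hw
    rw [mem_filter, mem7] at hw
    obtain ⟨h1, ⟨a, ha⟩, ⟨b, hb⟩, ⟨c, hc⟩⟩ := hw
    have e : m w = fun i => 4 * (![a, b, c] : V3) i := ext3 (by simp [ha]) (by simp [hb])
      (by simp [hc])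
    have e2 : m ![a, b, c] = w := by
      have h2 := h.sq w
      rw [e, h.lin] at h2
      funext i
      have h8 : 4 * m ![a, b, c] i = 4 * w i := congrFun h2 i
      omega
    refine ⟨![a, b, c], ?_, e2⟩
    rw [mem7]
    have h3 := h.ip ![a, b, c]
    rw [e2, h1] at h3
    omega

/-- the vectors divisible by `2` -/
def Ev2 (w : V3) : Prop := (2 : ℤ) ∣ w 0 ∧ (2 : ℤ) ∣ w 1 ∧ (2 : ℤ) ∣ w 2

instance : DecidablePred Ev2 := fun w => by unfold Ev2; infer_instance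

/-- an even vector is twice a vector -/
theorem half {n : ℤ} {w : V3} (hw : ip7 w w = 4 * n) (hE : Ev2 w) :
    ∃ v : V3, (fun i => 2 * v i) = w ∧ ip7 v v = n := by
  obtain ⟨⟨a, ha⟩, ⟨b, hb⟩, ⟨c, hc⟩⟩ := id hE
  refine ⟨![a, b, c], ?_, ?_⟩
  · refine ext3 ?_ ?_ ?_
    · simp; omega
    · simp; omega
    · simp; omega
  · unfold ip7 at hw ⊢
    rw [ha, hb, hc] at hw
    simp
    linarith

theorem card_Ev2 (n : ℤ) : ((vec7 (4 * n)).filter Ev2).card = (vec7 n).card := by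
  symm
  refine card_bij (fun v _ => fun i => 2 * v i) ?_ ?_ ?_
  · intro v hv
    rw [mem7] at hv
    rw [mem_filter, mem7]
    refine ⟨?_, ⟨_, rfl⟩, ⟨_, rfl⟩, ⟨_, rfl⟩⟩
    unfold ip7 at hv ⊢
    linear_combination 4 * hv
  · intro v _ w _ h
    funext i
    have h8 : 2 * v i = 2 * w i := congrFun h i
    omega
  · intro w hw
    rw [mem_filter, mem7] at hw
    obtain ⟨v, h1, h2⟩ := half hw.1 hw.2
    exact ⟨v, mem7.2 h2, h1⟩

/-! ### finite checks -/

/-- the form on residues -/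
def qf (a b c : ℕ) : ℕ := 7 * (a * a) + 4 * (b * b) + 8 * (c * c) + 4 * (b * c)

theorem check1 : ∀ a b c : Fin 8, ¬ (a.val % 2 = 0 ∧ b.val % 2 = 0 ∧ c.val % 2 = 0) →
    (qf a.val b.val c.val % 16 = 12 ∨ qf a.val b.val c.val % 16 = 0) →
    (if a.val % 2 = 0 ∧ b.val % 2 = 0 ∧ (b.val + 2 * c.val) % 4 = 0 then (1 : ℕ) else 0) +
    (if a.val % 2 = 0 ∧ (b.val + 3 * c.val) % 4 = 0 then 1 else 0) +
    (if c.val % 2 = 0 ∧ a.val % 2 = 0 ∧ (a.val + 2 * b.val + 3 * c.val) % 4 = 0 then 1 else 0) = 1 := by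
  decide

theorem check2 : ∀ a b c : Fin 8, qf a.val b.val c.val % 4 = 3 →
    ((if b.val % 2 = 0 then (1 : ℤ) else 0) +
    (if (b.val + c.val) % 2 = 0 then 1 else 0) +
    (if (a.val + c.val) % 2 = 0 then 1 else 0)) = 1 + (if qf a.val b.val c.val % 8 = 7 then 1 else -1)
      := by
  decide

theorem check2E : ∀ a b c : Fin 8, (qf a.val b.val c.val % 16 = 4 ∨ qf a.val b.val c.val % 16 = 8) →
    ((if b.val % 2 = 0 then (1 : ℤ) else 0) +
    (if (b.val + c.val) % 2 = 0 then 1 else 0) +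
    (if (a.val + c.val) % 2 = 0 then 1 else 0)) = 1 := by
  decide

/-- reduction modulo `8` -/
theorem red (w : V3) : ∃ a b c : Fin 8, (∃ p q r : ℤ, w 0 = 8 * p + (a.val : ℤ) ∧
    w 1 = 8 * q + (b.val : ℤ) ∧ w 2 = 8 * r + (c.val : ℤ)) ∧ ∃ K : ℤ, ip7 w w =
      (qf a.val b.val c.val : ℤ) + 16 * K := by
  have key : ∀ x : ℤ, ∃ a : Fin 8, ∃ p : ℤ, x = 8 * p + (a.val : ℤ) := by
    intro x
    refine ⟨⟨(x % 8).toNat, by omega⟩, x / 8, ?_⟩
    show x = 8 * (x / 8) + ((x % 8).toNat : ℤ)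
    omega
  obtain ⟨a, p, ha⟩ := key (w 0)
  obtain ⟨b, q, hb⟩ := key (w 1)
  obtain ⟨c, r, hc⟩ := key (w 2)
  refine ⟨a, b, c, ⟨p, q, r, ha, hb, hc⟩, 28 * p ^ 2 + 7 * p * a.val + 16 * q ^ 2 + 4 * q * b.val +
    32 * r ^ 2 + 8 * r * c.val + 16 * q * r + 2 * q * c.val + 2 * r * b.val, ?_⟩
  unfold ip7 qf
  rw [ha, hb, hc]
  push_cast
  ring

/-- the number of the images containing a vector -/
def cnt (w : V3) : ℤ := (if Im mA w then (1 : ℤ) else 0) + (if Im mB w then 1 else 0) +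
  (if Im mC w then 1 else 0)

theorem count1 {n : ℤ} (hn : n % 16 = 12 ∨ n % 16 = 0) {w : V3} (hw : ip7 w w = n)
    (hE : ¬ Ev2 w) : cnt w = 1 := by
  obtain ⟨a, b, c, ⟨p, q, r, h0, h1, h2⟩, K, hK⟩ := red w
  have h := check1 a b c (by
    intro hh
    apply hE
    unfold Ev2
    omega) (by omega)
  have e1 : (Im mA w) ↔ (a.val % 2 = 0 ∧ b.val % 2 = 0 ∧ (b.val + 2 * c.val) % 4 = 0) := by
    unfold Im
    simp only [mA_0, mA_1, mA_2]
    omega
  have e2 : (Im mB w) ↔ (a.val % 2 = 0 ∧ (b.val + 3 * c.val) % 4 = 0) := by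
    unfold Im
    simp only [mB_0, mB_1, mB_2]
    omega
  have e3 : (Im mC w) ↔ (c.val % 2 = 0 ∧ a.val % 2 = 0 ∧ (a.val + 2 * b.val + 3 * c.val) % 4 = 0) := by
    unfold Im
    simp only [mC_0, mC_1, mC_2]
    omega
  unfold cnt
  simp only [e1, e2, e3]
  exact_mod_cast h

theorem cnt2 {v : V3} {a b c : Fin 8} {p q r : ℤ} (h0 : v 0 = 8 * p + (a.val : ℤ))
    (h1 : v 1 = 8 * q + (b.val : ℤ)) (h2 : v 2 = 8 * r + (c.val : ℤ)) :
    cnt (fun i => 2 * v i) = (if b.val % 2 = 0 then (1 : ℤ) else 0) +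
    (if (b.val + c.val) % 2 = 0 then 1 else 0) + (if (a.val + c.val) % 2 = 0 then 1 else 0) := by
  have e1 : (Im mA (fun i => 2 * v i)) ↔ (b.val % 2 = 0) := by
    unfold Im
    simp only [mA_0, mA_1, mA_2]
    omega
  have e2 : (Im mB (fun i => 2 * v i)) ↔ ((b.val + c.val) % 2 = 0) := by
    unfold Im
    simp only [mB_0, mB_1, mB_2]
    omega
  have e3 : (Im mC (fun i => 2 * v i)) ↔ ((a.val + c.val) % 2 = 0) := by
    unfold Im
    simp only [mC_0, mC_1, mC_2]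
    omega
  unfold cnt
  simp only [e1, e2, e3]

theorem count2 {n : ℕ} (hn : n % 4 = 3) {v : V3} (hv : ip7 v v = n) :
    cnt (fun i => 2 * v i) = 1 + ep2 n := by
  obtain ⟨a, b, c, ⟨p, q, r, h0, h1, h2⟩, K, hK⟩ := red v
  have h := check2 a b c (by omega)
  rw [cnt2 h0 h1 h2, h]
  unfold ep2
  generalize qf a.val b.val c.val = X at hK ⊢
  have e4 : (X % 8 = 7) ↔ n % 8 = 7 := by omega
  simp only [e4]

theorem count2E {n : ℤ} (hn : n % 16 = 4 ∨ n % 16 = 8) {v : V3} (hv : ip7 v v = n) :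
    cnt (fun i => 2 * v i) = 1 := by
  obtain ⟨a, b, c, ⟨p, q, r, h0, h1, h2⟩, K, hK⟩ := red v
  rw [cnt2 h0 h1 h2]
  exact check2E a b c (by omega)

theorem sum_cnt (n : ℤ) : ∑ w ∈ vec7 (4 * n), cnt w = 3 * (vec7 n).card := by
  unfold cnt
  rw [sum_add_distrib, sum_add_distrib]
  have s : ∀ m : V3 → V3, Sm m → ∑ w ∈ vec7 (4 * n), (if Im m w then (1 : ℤ) else 0) =
      (vec7 n).card := by
    intro m hm
    rw [← card_Im hm n, card_filter]
    push_cast
    rfl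
  rw [s _ smA, s _ smB, s _ smC]
  ring

theorem he_odd {n : ℕ} (h4 : n % 4 = 3) :
    ((vec7 (4 * n)).card : ℤ) = (3 - ep2 n) * (vec7 n).card := by
  have h1 := sum_cnt n
  have s5 : ∀ w ∈ vec7 (4 * (n : ℤ)), cnt w = 1 + ep2 n * (if Ev2 w then 1 else 0) := by
    intro w hw
    rw [mem7] at hw
    by_cases hE : Ev2 w
    · obtain ⟨v, hm, h2⟩ := half hw hE
      have h3 := count2 h4 h2
      rw [hm] at h3
      rw [h3, if_pos hE, mul_one]
    · rw [if_neg hE, count1 (n := 4 * n) (by omega) hw hE]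
      ring
  have s3 : ((vec7 n).card : ℤ) = ∑ w ∈ vec7 (4 * (n : ℤ)), if Ev2 w then (1 : ℤ) else 0 := by
    rw [← card_Ev2, card_filter]
    push_cast
    rfl
  rw [sum_congr rfl s5, sum_add_distrib, ← mul_sum, ← s3, sum_const, nsmul_eq_mul, mul_one] at h1
  linarith

theorem he_even {n : ℤ} (hn : n % 16 = 4 ∨ n % 16 = 8) :
    (vec7 (4 * n)).card = 3 * (vec7 n).card := by
  have h1 := sum_cnt n
  have s5 : ∀ w ∈ vec7 (4 * n), cnt w = 1 := by
    intro w hw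
    rw [mem7] at hw
    by_cases hE : Ev2 w
    · obtain ⟨v, hm, h2⟩ := half hw hE
      have h3 := count2E hn h2
      rw [hm] at h3
      exact h3
    · exact count1 (n := 4 * n) (by omega) hw hE
  rw [sum_congr rfl s5, sum_const, nsmul_eq_mul, mul_one] at h1
  exact_mod_cast h1

/-- **HE7** -/
theorem t_HE7 : S_HE7 := by
  refine ⟨fun n h => he_odd h, fun m hm => ?_⟩
  have h := he_even (n := 4 * (m : ℤ)) (by omega)
  rw [← h]
  congr 2
  ring

end Pool.Agent.N971.P21G
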