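import Pool.Agent.N973.P21G.Ex
import Pool.Agent.N971.EX.Sgn
import Pool.Agent.N974.P21G.Cm

/-!
# The exact scale of the even symbol of level `21`

`ky = -Ω⁺`: the real parts of the periods are the multiples of `ky` by the integers `-EB 7 a (21 c)`
(crossing numbers of the forms of discriminant `49`), so `ky` generates the real parts of the period
lattice; the sign is the one of the value at the origin.
-/

set_option autoImplicit false
set_option linter.unusedSectionVars false

open UpperHalfPlane MatrixGroups CongruenceSubgroup Filter Topology MeasureTheory Set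

namespace Pool.Agent.N971.KY

open Pool.Agent.N402.MF21 (f21 Xw eigen21 param21 fricke21 w21_pos gff)
open Pool.Agent.N974.Gen
open Pool.Agent.N971.EX (scale mkL prim_eq cf_le)
open Pool.Agent.N973.P21G (cusp_not)
open Pool.Agent.W97.MT (ap)
open Pool.Agent.N974.P21G (ky kB wt_kB par_kB X_kB X11 nz_kB0)
open Pool.Agent.N974.GN (EvenHom cmp21 evenHom)
open Pool.Agent.N877.P21G (Fn cB gnM EB)
open Pool.Agent.N969.P17G (gen)

/-! ### real parts of the periods: no common factor -/

section gen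

variable {N : ℕ} [NeZero N] {f : CuspForm (Gamma0 N : Subgroup (GL (Fin 2) ℝ)) 2}

/-- **The real parts of the periods have no common factor.** -/
theorem scale_re {L : PeriodPair} {X : ℂ → ℂ} (h : Param f L X)
    (hcusp : ∀ r : ℚ, ¬ (N : ℤ) ∣ r.den → II f r ∉ L.lattice)
    {Op : ℝ} {v : ℂ} (hOp : Op ≠ 0) (hvr : v.re = 0) (hv : v.im ≠ 0)
    (hL : ∀ w : ℂ, w ∈ L.lattice ↔ ∃ a b : ℤ, w = a * Op + b * v) (k : ℤ)
    (hk : ∀ (a b c d : ℤ), a * d - b * ((N : ℤ) * c) = 1 → ∀ p : ℂ,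
      (∀ z : ℂ, 0 < z.im → F f ((a * z + b) / ((N : ℂ) * c * z + d)) = F f z + p) →
      ∃ m : ℤ, p.re = m * (k * Op)) : k = 1 ∨ k = -1 := by
  obtain ⟨k', hk', hkk⟩ : ∃ k' : ℤ, k' ≠ 0 ∧ ((k = 0 ∧ k' = 2) ∨ k' = k) := by
    by_cases h0 : k = 0
    · exact ⟨2, by norm_num, Or.inl ⟨h0, rfl⟩⟩
    · exact ⟨k, h0, Or.inr rfl⟩
  have hOp' : ((k' : ℝ) * Op) ≠ 0 := mul_ne_zero (by exact_mod_cast hk') hOp
  have hm : ∀ w : ℂ, w ∈ (mkL ((k' : ℝ) * Op) v hOp' hv).lattice ↔
      ∃ a b : ℤ, w = a * (k' * Op) + b * v := by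
    intro w
    rw [PeriodPair.mem_lattice]
    constructor
    · rintro ⟨a, b, rfl⟩
      exact ⟨a, b, by simp only [mkL]; push_cast; ring⟩
    · rintro ⟨a, b, rfl⟩
      exact ⟨a, b, by simp only [mkL]; push_cast; ring⟩
  have key := scale h hcusp (mkL ((k' : ℝ) * Op) v hOp' hv) (fun w hw => by
      obtain ⟨a, b, rfl⟩ := (hm w).1 hw
      exact (hL _).2 ⟨a * k', b, by push_cast; ring⟩) (fun a b c d hdet p hp => by
      have hpL := period_mem h hdet hp
      obtain ⟨x, y, hxy⟩ := (hL p).1 hpL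
      obtain ⟨m, hm1⟩ := hk a b c d hdet p hp
      have hre : p.re = x * Op := by rw [hxy]; simp [hvr]
      rw [hre] at hm1
      have h2 : (x : ℝ) = m * k := by
        have h3 : (x : ℝ) * Op = (m * k) * Op := by rw [hm1]; ring
        exact mul_right_cancel₀ hOp h3
      have h3 : x = m * k := by exact_mod_cast h2
      refine (hm p).2 ?_
      rcases hkk with ⟨h0, -⟩ | h0
      · refine ⟨0, y, ?_⟩
        rw [hxy, h3, h0]
        push_cast
        ring
      · refine ⟨m, y, ?_⟩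
        rw [hxy, h3, h0]
        push_cast
        ring) (Op : ℂ) ((hL _).2 ⟨1, 0, by push_cast; ring⟩)
  obtain ⟨a, b, hab⟩ := (hm _).1 key
  have hre := congrArg Complex.re hab
  have h1 : Op = a * (k' * Op) := by simpa [hvr] using hre
  have h2 : (1 : ℝ) = a * k' := by
    have h3 : (1 : ℝ) * Op = (a * k') * Op := by rw [one_mul]; linarith
    exact mul_right_cancel₀ hOp h3
  have h3 : (1 : ℤ) = a * k' := by exact_mod_cast h2
  have h4 := Int.isUnit_iff.1 (IsUnit.of_mul_eq_one a (by rw [mul_comm]; exact h3.symm : k' * a = 1))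
  rcases hkk with ⟨-, h0⟩ | h0
  · rw [h0] at h4
    omega
  · rw [← h0]
    exact h4

end gen

/-! ### the forms of discriminant `49` -/

theorem gnM7 (q : ℤ × ℤ × ℤ) : gnM 7 q = gen 7 q := by
  unfold gnM
  rw [if_neg (by norm_num), one_mul, Nat.Prime.primeFactors (by norm_num : Nat.Prime 7)]
  have : ({7} : Finset ℕ).erase 2 = {7} := by decide
  rw [this, Finset.prod_singleton]

theorem gen7 {q : ℤ × ℤ × ℤ} (h : (7 : ℤ) ∣ q.1) : gen 7 q = jacobiSym q.2.2 7 := by
  unfold gen
  rw [if_pos (by exact_mod_cast h)]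

/-- the shape of the forms with nonzero weight -/
theorem shape {a b c : ℤ} (hc : cB 7 (a, b, c)) (h7 : ¬ (7 : ℤ) ∣ c) :
    ∃ k b' : ℤ, a = 49 * k ∧ b = 7 * b' ∧ 4 * k * c = b' ^ 2 - 1 := by
  obtain ⟨h1, ⟨a', h2⟩, -⟩ := hc
  simp only at h1 h2
  subst h2
  have p7 : Prime (7 : ℤ) := Int.prime_iff_natAbs_prime.2 (by norm_num)
  have hb : (7 : ℤ) ∣ b := by
    apply p7.dvd_of_dvd_pow (n := 2)
    exact ⟨7 + 4 * a' * c, by push_cast at h1; linear_combination h1⟩
  obtain ⟨b', rfl⟩ := hb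
  have h3 : (7 : ℤ) ∣ a' * c := by
    have h4 : 7 * (b' ^ 2 - 1) = 4 * (a' * c) := by
      have : 7 * (7 * (b' ^ 2 - 1)) = 7 * (4 * (a' * c)) := by
        push_cast at h1; linear_combination h1
      omega
    omega
  rcases p7.dvd_or_dvd h3 with h4 | h4
  · obtain ⟨k, rfl⟩ := h4
    refine ⟨k, b', by ring, rfl, ?_⟩
    have : 49 * (4 * k * c) = 49 * (b' ^ 2 - 1) := by push_cast at h1; linear_combination -h1
    omega
  · exact absurd h4 h7

theorem wt_zero {a b c : ℤ} (hc : cB 7 (a, b, c)) (h7 : (7 : ℤ) ∣ c) : gnM 7 (a, b, c) = 0 := by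
  rw [gnM7, gen7 hc.2.1]
  exact Pool.Agent.N974.RQ.jac_zero_of_dvd (by norm_num) (by exact_mod_cast h7)

theorem EB01 : EB 7 0 1 = 0 := by
  classical
  unfold EB
  refine finsum_eq_zero_of_forall_eq_zero ?_
  rintro ⟨a, b, c⟩
  by_cases h : cB 7 (a, b, c) ∧ 0 < a ∧ a * 0 ^ 2 + b * 0 * 1 + c * 1 ^ 2 < 0
  · rw [if_pos h]
    obtain ⟨h1, h2, h3⟩ := h
    by_cases h7 : (7 : ℤ) ∣ c
    · exact wt_zero h1 h7
    · exfalso
      obtain ⟨k, b', rfl, rfl, h4⟩ := shape h1 h7
      have hk : 0 < k := by omega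
      have hc : c < 0 := by linarith
      nlinarith [sq_nonneg b', mul_pos hk (neg_pos.2 hc)]
  · rw [if_neg h]

theorem EB12 : EB 7 1 2 = -1 := by
  classical
  unfold EB
  have hq : cB 7 ((49 : ℤ), (-49 : ℤ), (12 : ℤ)) := by
    refine ⟨by norm_num, by norm_num, by norm_num⟩
  rw [finsum_eq_single _ ((49 : ℤ), (-49 : ℤ), (12 : ℤ))]
  · rw [if_pos ⟨hq, by norm_num, by norm_num⟩, gnM7, gen7 hq.2.1]
    show jacobiSym 12 7 = -1
    norm_num
  · rintro ⟨a, b, c⟩ hne
    by_cases h : cB 7 (a, b, c) ∧ 0 < a ∧ a * 1 ^ 2 + b * 1 * 2 + c * 2 ^ 2 < 0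
    · rw [if_pos h]
      obtain ⟨h1, h2, h3⟩ := h
      by_cases h7 : (7 : ℤ) ∣ c
      · exact wt_zero h1 h7
      · exfalso
        obtain ⟨k, b', rfl, rfl, h4⟩ := shape h1 h7
        have hk : 0 < k := by omega
        set v : ℤ := 49 * k * 1 ^ 2 + 7 * b' * 1 * 2 + c * 2 ^ 2 with hv
        have h5 : k * v = (7 * k + b') ^ 2 - 1 := by rw [hv]; linear_combination h4
        have h6 : k * v < 0 := mul_neg_of_pos_of_neg hk h3
        have h8 : 7 * k + b' = 0 := by
          have : (7 * k + b') ^ 2 < 1 := by linarith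
          nlinarith
        have h9 : k * v = -1 := by rw [h5, h8]; norm_num
        have h10 : k = 1 := by
          have h11 : k ∣ 1 := ⟨-v, by linarith⟩
          exact le_antisymm (Int.le_of_dvd one_pos h11) hk
        apply hne
        subst h10
        have hb : b' = -7 := by omega
        subst hb
        have hc : c = 12 := by omega
        rw [hc]
        norm_num
    · rw [if_neg h]

/-! ### the periods -/

theorem fn7 : Fn 7 := Or.inl ⟨(by norm_num : Nat.Prime 7).squarefree, by norm_num⟩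

/-- the real symbol on the cusps equivalent to the origin -/
theorem symb_int {a b c d : ℤ} (h : a * d - 21 * (b * c) = 1) :
    (II f21 ((b : ℚ) / d)).re - (II f21 0).re = -ky * (EB 7 a (21 * c) : ℤ) := by
  have P := symbP eigen21 (by norm_num : 1 < 21)
  have H := wt_kB fn7
  have G := EvenHom.cast (evenHom H (par_kB fn7))
  have h1 := cmp21 P G h
  rw [X11 H (nz_kB0 (by norm_num) (dvd_refl 7)), X_kB fn7, X_kB fn7, X_kB fn7, EB01, EB12] at h1
  have e : (II f21 (1 / 2)).re - (II f21 0).re = ky := rfl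
  rw [e] at h1
  push_cast at h1 ⊢
  linarith

theorem re_period {a b c d : ℤ} (hdet : a * d - b * ((21 : ℤ) * c) = 1) {p : ℂ}
    (hp : ∀ z : ℂ, 0 < z.im → F f21 ((a * z + b) / (((21 : ℕ) : ℂ) * c * z + d)) = F f21 z + p) :
    p.re = -ky * (EB 7 a (21 * c) : ℤ) := by
  have hd : d ≠ 0 := by
    rintro rfl
    have : (21 : ℤ) * (b * c) = -1 := by linarith
    omega
  have h1 := II_gamma f21 (N := 21) (by exact_mod_cast hdet) hp 0 (by
    rw [mul_zero, zero_add]
    exact_mod_cast hd)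
  have h2 : (II f21 ((b : ℚ) / d)).re - (II f21 0).re = p.re := by
    have h3 := congrArg Complex.re h1
    rw [Complex.add_re] at h3
    have e : ((a : ℚ) * 0 + (b : ℚ)) / (((21 : ℕ) : ℚ) * (c : ℚ) * 0 + (d : ℚ)) = (b : ℚ) / d := by
      rw [mul_zero, mul_zero, zero_add, zero_add]
    rw [e] at h3
    linarith
  rw [← h2]
  exact symb_int (by linear_combination hdet)

/-! ### the sign -/

/-- `exp (- 2 π / √21)` -/
noncomputable def qq21 : ℝ := Real.exp (-(2 * Real.pi / √21))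

theorem qq_pos : 0 < qq21 := Real.exp_pos _

theorem qq_lt : qq21 < 1 / 3 := by
  have h21 : √(21 : ℝ) ≤ 4.6 := by
    rw [Real.sqrt_le_left (by norm_num)]
    norm_num
  have h0 : (0 : ℝ) < √21 := Real.sqrt_pos.2 (by norm_num)
  have hpi := Real.pi_gt_d4
  have hx : (1.365 : ℝ) ≤ 2 * Real.pi / √21 := by
    rw [le_div_iff₀ h0]
    nlinarith
  have h4 := Real.quadratic_le_exp_of_nonneg (x := 2 * Real.pi / √21) (by positivity)
  have h5 : (1.365 : ℝ) ^ 2 ≤ (2 * Real.pi / √21) ^ 2 := pow_le_pow_left₀ (by norm_num) hx 2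
  have h1 : (3 : ℝ) < Real.exp (2 * Real.pi / √21) := by
    norm_num at h5
    linarith
  unfold qq21
  rw [Real.exp_neg, inv_lt_comm₀ (Real.exp_pos _) (by norm_num)]
  norm_num
  exact h1

/-- the fixed point of the Fricke involution -/
noncomputable def z0 : ℂ := ((1 / √21 : ℝ) : ℂ) * Complex.I

theorem z0_im : z0.im = 1 / √21 := by
  unfold z0
  rw [Complex.mul_I_im, Complex.ofReal_re]

theorem z0_pos : 0 < z0.im := by
  rw [z0_im]
  positivity

theorem exp_z0 (n : ℕ) : Complex.exp (2 * Real.pi * Complex.I * n * z0) = ((qq21 ^ n : ℝ) : ℂ) := by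
  have e : (2 * Real.pi * Complex.I * n * z0 : ℂ) = ((n * (-(2 * Real.pi / √21)) : ℝ) : ℂ) := by
    unfold z0
    push_cast
    linear_combination (2 * Real.pi * n * (1 / (√21 : ℝ)) : ℂ) * Complex.I_sq
  rw [e, ← Complex.ofReal_exp]
  unfold qq21
  rw [← Real.exp_nat_mul]

theorem F_z0 : HasSum (fun n : ℕ => (cf f21 n).re / n * qq21 ^ n) (F f21 z0).re := by
  have hr0 := qq_pos
  have hr1 : qq21 < 1 := lt_trans qq_lt (by norm_num)
  rw [← prim_eq f21 z0_pos]
  have hs : Summable (fun n : ℕ => (qExpansion 1 f21).coeff n / n *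
      Complex.exp (2 * Real.pi * Complex.I * n * z0)) := by
    refine Summable.of_norm_bounded (g := fun n : ℕ => 2 * qq21 ^ n)
      ((summable_geometric_of_lt_one hr0.le hr1).mul_left 2) fun n => ?_
    rcases Nat.eq_zero_or_pos n with rfl | hn
    · simp
    · rw [norm_mul, exp_z0, Complex.norm_real, Real.norm_eq_abs, abs_of_pos (pow_pos hr0 n),
        norm_div, Complex.norm_natCast]
      have h1 : ‖(qExpansion 1 f21).coeff n‖ = |(cf f21 n).re| := by
        have h2 := cf_re eigen21 n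
        conv_lhs => rw [show (qExpansion 1 f21).coeff n = cf f21 n from rfl, h2, Complex.norm_real,
          Real.norm_eq_abs]
      have h2 := cf_le eigen21 n hn
      have hn0 : (0 : ℝ) < n := by exact_mod_cast hn
      rw [h1]
      have h3 : |(cf f21 n).re| / n ≤ 2 := by
        rw [div_le_iff₀ hn0]
        exact h2
      exact mul_le_mul_of_nonneg_right h3 (pow_nonneg hr0.le n)
  have h1 := ((Complex.hasSum_iff _ _).1 hs.hasSum).1
  unfold TH940.prim
  have e0 : (fun n : ℕ => (cf f21 n).re / n * qq21 ^ n) = fun n : ℕ =>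
      ((qExpansion 1 f21).coeff n / n * Complex.exp (2 * Real.pi * Complex.I * n * z0)).re := by
    funext n
    have h2 := cf_re eigen21 n
    have h3 : ((qExpansion 1 f21).coeff n / n * Complex.exp (2 * Real.pi * Complex.I * n * z0) : ℂ) =
        (((cf f21 n).re / n * qq21 ^ n : ℝ) : ℂ) := by
      rw [show (qExpansion 1 f21).coeff n = cf f21 n from rfl, exp_z0]
      push_cast
      rw [← h2]
    rw [h3, Complex.ofReal_re]
  rw [e0]
  exact h1

theorem F_z0_pos : 0 < (F f21 z0).re := by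
  have hr0 := qq_pos
  have hrl := qq_lt
  have hr1 : qq21 < 1 := lt_trans qq_lt (by norm_num)
  set T : ℕ → ℝ := fun n => (cf f21 n).re / n * qq21 ^ n with hT
  have h2 : HasSum T (F f21 z0).re := F_z0
  have h3 := h2.summable.sum_add_tsum_nat_add 2
  rw [h2.tsum_eq] at h3
  have c1 : (cf f21 1).re = 1 := by rw [cf_one eigen21]; simp
  have hfin : ∑ i ∈ Finset.range 2, T i = qq21 := by
    simp only [Finset.sum_range_succ, Finset.sum_range_zero, hT, c1]
    norm_num
  have htail : |∑' i : ℕ, T (i + 2)| ≤ 2 * qq21 ^ 2 / (1 - qq21) := by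
    have hg : HasSum (fun i : ℕ => 2 * qq21 ^ 2 * qq21 ^ i) (2 * qq21 ^ 2 * (1 - qq21)⁻¹) :=
      (hasSum_geometric_of_lt_one hr0.le hr1).mul_left _
    rw [div_eq_mul_inv, ← Real.norm_eq_abs]
    refine tsum_of_norm_bounded hg fun i => ?_
    rw [Real.norm_eq_abs]
    simp only [hT]
    rw [abs_mul, abs_div, Nat.abs_cast, abs_of_pos (pow_pos hr0 (i + 2))]
    have hn0 : (0 : ℝ) < ((i + 2 : ℕ) : ℝ) := by positivity
    have k1 : |(cf f21 (i + 2)).re| / ((i + 2 : ℕ) : ℝ) ≤ 2 := by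
      rw [div_le_iff₀ hn0]
      exact cf_le eigen21 (i + 2) (by omega)
    have k3 : 0 ≤ qq21 ^ (i + 2) := by positivity
    calc |(cf f21 (i + 2)).re| / ((i + 2 : ℕ) : ℝ) * qq21 ^ (i + 2)
        ≤ 2 * qq21 ^ (i + 2) := by gcongr
      _ = 2 * qq21 ^ 2 * qq21 ^ i := by rw [pow_add]; ring
  have h4 : 2 * qq21 ^ 2 / (1 - qq21) < qq21 := by
    rw [div_lt_iff₀ (by linarith)]
    nlinarith
  have h5 := (abs_le.1 htail).1
  linarith

/-- the value at the origin is positive -/
theorem re0_pos : 0 < (II f21 0).re := by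
  obtain ⟨p, hp⟩ := F_mob (f := f21) (A := 0) (B := -1) (C := 21) (D := 0) (by norm_num)
    (ε := -1) (fun z hz => by
      have h1 := fricke21 hz
      have h2 := w21_pos hz
      have e : (((0 : ℝ) : ℂ) * z + ((-1 : ℝ) : ℂ)) / (((21 : ℝ) : ℂ) * z + ((0 : ℝ) : ℂ)) =
          -1 / (21 * z) := by push_cast; congr 1 <;> ring
      rw [e, gff h2, gff hz, h1]
      push_cast
      ring)
  have h2 : II f21 0 = p := mob_II_inf f21 (A := 0) (B := -1) (C := 21) (D := 0) (by norm_num) hp 0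
    (by norm_num) (by norm_num)
  have h4 := hp _ z0_pos
  have h21 : ((√(21 : ℝ) : ℝ) : ℂ) ≠ 0 := by
    have : (0 : ℝ) < √21 := Real.sqrt_pos.2 (by norm_num)
    exact_mod_cast this.ne'
  have h22 : ((√(21 : ℝ) : ℝ) : ℂ) ^ 2 = 21 := by
    rw [← Complex.ofReal_pow, Real.sq_sqrt (by norm_num)]
    norm_num
  have h5 : (((0 : ℝ) : ℂ) * z0 + ((-1 : ℝ) : ℂ)) / (((21 : ℝ) : ℂ) * z0 + ((0 : ℝ) : ℂ)) = z0 := by
    unfold z0
    push_cast
    rw [zero_mul, zero_add, add_zero, div_eq_iff (mul_ne_zero (by norm_num)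
      (mul_ne_zero (by simp) Complex.I_ne_zero))]
    field_simp
    rw [h22]
    linear_combination -21 * Complex.I_sq
  rw [h5] at h4
  have h6 := F_z0_pos
  have h7 := congrArg Complex.re h4
  simp only [Complex.add_re, neg_mul, one_mul, Complex.neg_re] at h7
  rw [h2]
  linarith

/-- the real symbol in terms of the value at the origin -/
theorem ky_eq : ky = -4 * (II f21 0).re := by
  have P := symbP eigen21 (by norm_num : 1 < 21)
  have h4 := P.hecke 2 Nat.prime_two (by norm_num) 0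
  have e2 : ap E21 2 = -1 := ap21_2
  simp only [Finset.sum_range_succ, Finset.sum_range_zero] at h4
  rw [e2] at h4
  norm_num at h4
  show (II f21 (1 / 2)).re - (II f21 0).re = _
  linarith

/-- **The scale of the even symbol.** -/
theorem ky_neg_Op (L : PeriodPair) (Op Om : ℝ) (hOp : 0 < Op) (hOm : 0 < Om)
    (g2 : L.g₂ = 193 / 12) (g3 : L.g₃ = 575 / 216)
    (hL : ∀ w : ℂ, w ∈ L.lattice ↔ ∃ a b : ℤ, w = a * Op + b * Om * Complex.I) :
    ky = -Op := by
  have hp := param21 L g2 g3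
  -- the scale is an integer multiple
  obtain ⟨m, hm⟩ : ∃ m : ℤ, ky = m * Op := by
    have hdet : (11 : ℤ) * 2 - 1 * (((21 : ℕ) : ℤ) * 1) = 1 := by norm_num
    obtain ⟨p, hpp⟩ := F_gamma f21 hdet
    have h1 := period_mem hp hdet hpp
    obtain ⟨a, b, hab⟩ := (hL p).1 h1
    have h2 := re_period (a := 11) (b := 1) (c := 1) (d := 2) (by norm_num) hpp
    have h3 : EB 7 11 (21 * 1) = -1 := by
      have H := wt_kB fn7
      have h4 := X11 H (nz_kB0 (by norm_num) (dvd_refl 7))
      rw [X_kB fn7, X_kB fn7, X_kB fn7, EB01, EB12] at h4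
      omega
    rw [h3] at h2
    have h5 : p.re = a * Op := by rw [hab]; simp
    refine ⟨a, ?_⟩
    rw [← h5, h2]
    push_cast
    ring
  have hv : ((Om : ℂ) * Complex.I).im = Om := by simp
  have h1 : m = 1 ∨ m = -1 := by
    refine scale_re hp (cusp_not g2 g3) (Op := Op) (v := (Om : ℂ) * Complex.I)
      hOp.ne' (by simp) (by rw [hv]; exact hOm.ne') (fun w => ?_) m (fun a b c d hdet p hpp => ?_)
    · rw [hL]
      constructor
      · rintro ⟨a, b, rfl⟩
        exact ⟨a, b, by ring⟩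
      · rintro ⟨a, b, rfl⟩
        exact ⟨a, b, by ring⟩
    · have h2 := re_period (by exact_mod_cast hdet) hpp
      exact ⟨-(EB 7 a (21 * c)), by rw [h2, hm]; push_cast; ring⟩
  have h2 := re0_pos
  have h3 := ky_eq
  rcases h1 with rfl | rfl
  · exfalso
    push_cast at hm
    linarith
  · rw [hm]
    push_cast
    ring

end Pool.Agent.N971.KY
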