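import Pool.Agent.N973.P21G.Px
import Pool.Agent.N971.P21G.Ky

/-!
# The scale of the even symbol of level `21`: the hypothesis `Hky` of `N973.P21G.Px`
-/

set_option autoImplicit false

namespace Pool.Agent.N971.KY

/-- **`ky = -Ω⁺`** -/
theorem hky : Pool.Agent.N973.P21G.Hky := fun L Op Om hOp hOm g2 g3 hL =>
  ky_neg_Op L Op Om hOp hOm g2 g3 hL

end Pool.Agent.N971.KY
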