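import Pool.Agent.N816.PG21.Xn
import Pool.Agent.N975.P21G.Rot7

/-!
# C2 at level `7` without a condition at `3` (project P21G)
-/

set_option autoImplicit false

namespace Pool.Agent.N971.P21G.X

open Finset
open Pool.Agent.Z700 (hh fac)
open Pool.Agent.Y574.Z7 (chp dvd_fac)
open Pool.Agent.N969.P15 (V3 un psp psp2 Ev c2 chE tb)
open Pool.Agent.N969.P17G (psl psl2 gen gnE chM chP sgnE bdE sgp sg2)
open Pool.Agent.N969.RQ (Fd ip7 vec7 c7)
open Pool.Agent.N295.P15 (Ff dvd_cn dvd_iff' fac_ST fac4 pf_four mem_ST)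
open Pool.Agent.N295.P15.E (eT eS eT_sq eS_sq pf_prime pf_dvd kq cq kq_sq Ps Ps_pm)
open Pool.Agent.N833.P21 (p7 Q' L2 M2 R1 pow_alt)
open Pool.Agent.N871.G21
open Pool.Agent.N877.P21G (Fn I7 L7 L7r dt Wd)
open Pool.Agent.N816.Xn (lev_7)

variable {n : ℕ} {B : Finset ℕ}

/-- the local sum without condition at an odd prime -/
theorem Lc_one (h : FF n) {c S T : ℕ} (hc : c = 1 ∨ c = 2) (hS : S ≠ 0) (hT : T ≠ 0)
    (hST : S + T = c * n) {l : ℕ} (hp : l.Prime) (h2 : l ≠ 2) :
    Lc (fun _ _ => 1) n B S T l = Ff n S T l * sT n B T l := by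
  have hD := mem_ST hS hT hp
  by_cases hlP : l ∈ n.primeFactors
  · have hlP' : l ∈ n.primeFactors.erase 2 := Finset.mem_erase.2 ⟨h2, hlP⟩
    have hd := dvd_iff' hST hlP
    have hD' : l ∈ (S * T).primeFactors ↔ l ∣ T := by rw [hD, hd, or_self]
    unfold Ff
    simp only [hD']
    by_cases h1 : l ∣ T
    · rw [if_pos h1]
      have c1 := eT_sq (n := n) hp hT
      have e0 : fac n (S * T) l = 1 + eS n S l * eT n T l := by
        unfold fac
        rw [if_pos (pf_dvd hlP), hh_ST h hS hT hlP']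
      unfold sT
      by_cases hB : l ∈ B
      · rw [Lc_L hS hT hST hlP hB h1, if_neg (by tauto), e0]
        ring
      · rw [Lc_R hS hT hST hlP hB h1, if_pos ⟨hlP, hB⟩, e0]
        linear_combination (-(eS n S l)) * c1
    · rw [if_neg h1, Lc_nd hST hlP h1]
  · rw [sT_out hlP, mul_one, Lc_out hlP]
    simp only [mul_one]
    unfold Ff
    by_cases hm : l ∈ (S * T).primeFactors
    · rw [if_pos hm, facg_eq h hS hT hp h2 hlP]
      rcases one_zero h hc hS hT hST hp h2 hlP with h0 | h0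
      · rw [h0, zero_add, Finset.sum_range_one, zero_add]
        exact Finset.sum_congr rfl fun j _ => by rw [zero_add]
      · rw [h0, zero_add, add_zero]
        exact Finset.sum_congr rfl fun i _ => by rw [Finset.sum_range_one, add_zero]
    · rw [if_neg hm]
      rw [hD] at hm
      push Not at hm
      rw [Nat.factorization_eq_zero_of_not_dvd hm.1, Nat.factorization_eq_zero_of_not_dvd hm.2]
      simp

/-- what follows if the factor at `3` does not vanish -/
theorem three (h : FF n) {c S T : ℕ} (hc : c = 1 ∨ c = 2) (hS : S ≠ 0) (hT : T ≠ 0)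
    (hST : S + T = c * n) (hne : Ff n S T 3 ≠ 0) :
    dl n T = (if 7 ∈ n.primeFactors then 1 else Ps n 7 ^ T.factorization 7) ∧
    dl n S = (if 7 ∈ n.primeFactors then 1 else Ps n 7 ^ S.factorization 7) ∧
    hl n S T 3 = 1 ∧ (3 ∈ n.primeFactors → eS n S 3 = eT n T 3) := by
  have hp : Nat.Prime 3 := Nat.prime_three
  by_cases h3 : 3 ∈ n.primeFactors
  · have h3' : 3 ∈ n.primeFactors.erase 2 := Finset.mem_erase.2 ⟨by norm_num, h3⟩
    have e : eS n S 3 = eT n T 3 := by
      by_cases h1 : 3 ∣ T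
      · have h6 := hne
        unfold Ff fac at h6
        rw [if_pos ((mem_ST hS hT hp).2 (Or.inr h1)), if_pos (pf_dvd h3), hh_ST h hS hT h3'] at h6
        have c1 := eT_sq (n := n) hp hT
        have c3 := eS_sq (n := n) hp hS
        rcases mul_self_eq_one_iff.1 c1 with h7 | h7 <;>
          rcases mul_self_eq_one_iff.1 c3 with h8 | h8 <;>
          rw [h7, h8] at h6 ⊢ <;> norm_num at h6
      · exact eS_nd hST h3' h1
    refine ⟨?_, ?_, ?_, fun _ => e⟩
    · unfold dl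
      rw [if_pos h3, one_mul]
    · unfold dl
      rw [if_pos h3, one_mul]
    · unfold hl
      rw [if_pos h3, e, eT_sq hp hT]
  · have hx := Ps_pm (n := n) (m := 3) (by norm_num)
    have key : Ps n 3 ^ S.factorization 3 = 1 ∧ Ps n 3 ^ T.factorization 3 = 1 := by
      by_cases hm : 3 ∈ (S * T).primeFactors
      · have h6 := hne
        unfold Ff at h6
        rw [if_pos hm, facg_eq h hS hT hp (by norm_num) h3] at h6
        rcases one_zero h hc hS hT hST hp (by norm_num) h3 with h0 | h0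
        · rw [h0, zero_add] at h6
          rw [h0, pow_zero]
          exact ⟨rfl, pow_alt hx h6⟩
        · rw [h0, add_zero] at h6
          rw [h0, pow_zero]
          exact ⟨pow_alt hx h6, rfl⟩
      · rw [mem_ST hS hT hp] at hm
        push Not at hm
        rw [Nat.factorization_eq_zero_of_not_dvd hm.1, Nat.factorization_eq_zero_of_not_dvd hm.2,
          pow_zero]
        exact ⟨rfl, rfl⟩
    refine ⟨?_, ?_, ?_, fun h4 => absurd h4 h3⟩
    · unfold dl
      rw [if_neg h3, key.2, one_mul]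
    · unfold dl
      rw [if_neg h3, key.1, one_mul]
    · unfold hl
      rw [if_neg h3]

/-- the signs at the primes of `A` -/
theorem main_A' {A m : ℕ} (hA : A = 1 ∨ Fd A) (hm : Fn m) (hcop : Nat.Coprime A m)
    {c S T : ℕ} (hc : c = 1 ∨ c = 2) (hS : S ≠ 0) (hT : T ≠ 0) (hST : S + T = c * (A * m))
    (h3 : 3 ∈ (A * m).primeFactors → eS (A * m) S 3 = eT (A * m) T 3) (h7 : ¬ 7 ∣ A) :
    (∏ l ∈ A.primeFactors, eT (A * m) T l) * (L2 (A * m) S T * Fs (A * m) S T) =
      sgnE c A (A * m) T * (L2 (A * m) S T * Fs (A * m) S T) := by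
  obtain ⟨hF, hk⟩ := Fn_mul hA hm hcop
  have hFF := FF_of hF
  have hA0 : A ≠ 0 := by
    rintro rfl
    exact hFF.n0 (by rw [zero_mul])
  have hm0 : m ≠ 0 := by
    rintro rfl
    exact hFF.n0 (by rw [mul_zero])
  have hsub : A.primeFactors ⊆ (A * m).primeFactors :=
    Nat.primeFactors_mono (Dvd.intro m rfl) (Nat.mul_ne_zero hA0 hm0)
  rcases nv_or (A * m) S T with ⟨hF', hL⟩ | ⟨h1, _⟩
  · congr 1
    have e : ∏ p ∈ A.primeFactors, eT (A * m) T p =
        (∏ p ∈ A.primeFactors, kq (A * m) p) * sgnE c A (A * m) T := by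
      unfold sgnE
      rw [← Finset.prod_mul_distrib]
      refine Finset.prod_congr rfl fun p hp => ?_
      have hTn : T < c * (A * m) := by omega
      by_cases h2 : p = 2
      · subst h2
        rw [if_pos rfl, eT_two (Fn_two hF ((pf_dvd hp).mul_right m)) hT]
      · rw [if_neg h2]
        have hp' : p ∈ (A * m).primeFactors.erase 2 := Finset.mem_erase.2 ⟨h2, hsub hp⟩
        refine eT_odd hFF hT hc hTn hp' fun hpT _ => ?_
        have e3 : c * (A * m) - T = S := by omega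
        rw [e3]
        by_cases hp3 : p = 3
        · subst hp3
          rw [h3 (hsub hp), eT_sq (pf_prime hp) hT]
          norm_num
        · have hp7 : p ≠ 7 := by
            rintro rfl
            exact h7 (pf_dvd hp)
          rw [eS_eq hFF hS hT hST hF' hp' hp3 hp7, eT_sq (pf_prime hp) hT]
          norm_num
    rw [e, hk, one_mul]
  · rw [h1, mul_zero, mul_zero]

/-- the signs at the primes of `m` -/
theorem main_m' {A m : ℕ} (hA : A = 1 ∨ Fd A) (hm : Fn m) (hcop : Nat.Coprime A m)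
    {c S T : ℕ} (hc : c = 1 ∨ c = 2) (hS : S ≠ 0) (hT : T ≠ 0) (hST : S + T = c * (A * m))
    (h3 : 3 ∈ (A * m).primeFactors → eS (A * m) S 3 = eT (A * m) T 3) (h7 : ¬ 7 ∣ A) :
    (∏ l ∈ m.primeFactors, eT (A * m) T l) * (L2 (A * m) S T * Fs (A * m) S T) =
      -(dl (A * m) T * sgnE c A (A * m) T) * (L2 (A * m) S T * Fs (A * m) S T) := by
  obtain ⟨hF, hk⟩ := Fn_mul hA hm hcop
  have e1 := main_A' hA hm hcop hc hS hT hST h3 h7
  have e2 := main_T hF hc hS hT hST
  have hFF := FF_of hF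
  have hA0 : A ≠ 0 := by
    rintro rfl
    exact hFF.n0 (by rw [zero_mul])
  have hm0 : m ≠ 0 := by
    rintro rfl
    exact hFF.n0 (by rw [mul_zero])
  rw [Nat.primeFactors_mul hA0 hm0, Finset.prod_union hcop.disjoint_primeFactors] at e2
  have e3 : (∏ l ∈ A.primeFactors, eT (A * m) T l) * ∏ l ∈ A.primeFactors, eT (A * m) T l = 1 := by
    rw [← Finset.prod_mul_distrib]
    exact Finset.prod_eq_one fun l hl => eT_sq (pf_prime hl) hT
  generalize ∏ l ∈ A.primeFactors, eT (A * m) T l = a at *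
  generalize ∏ l ∈ m.primeFactors, eT (A * m) T l = b at *
  generalize L2 (A * m) S T * Fs (A * m) S T = F at *
  linear_combination (-(b * F)) * e3 + a * e2 - (dl (A * m) T) * e1

/-- the factor at `3` of the densities -/
theorem fac3 {S T : ℕ} (h : FF n) (hS : S ≠ 0) (hT : T ≠ 0) :
    (if 3 ∣ 4 * S * T then fac n (4 * S * T) 3 else 1) = Ff n S T 3 := by
  have hp : Nat.Prime 3 := Nat.prime_three
  have hST0 := mul_ne_zero hS hT
  have e1 : 3 ∣ 4 * S * T ↔ 3 ∈ (S * T).primeFactors := by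
    rw [Nat.mem_primeFactors, mul_assoc]
    constructor
    · intro h1
      exact ⟨hp, (by norm_num : Nat.Coprime 3 4).dvd_of_dvd_mul_left h1, hST0⟩
    · intro h1
      exact h1.2.1.mul_left 4
  unfold Ff
  simp only [e1]
  rw [mul_assoc, fac_four h hST0 hp (by norm_num)]

/-- the density, `7` inert -/
theorem L7_val' {S T : ℕ} (h : Fn n) (hS : S ≠ 0) (hT : T ≠ 0) (hST : S + T = 1 * n) :
    L7 n (2 * T - (n : ℕ)) (4 * S * T) = if Odd (S.factorization 7 + T.factorization 7) then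
      Ff n S T 3 * (M2 n S T * Fs n S T) else 0 := by
  have hF := FF_of h
  have hST0 := mul_ne_zero hS hT
  have hD : 4 * S * T ≠ 0 := mul_ne_zero (mul_ne_zero (by norm_num) hS) hT
  unfold L7
  have r7 : (4 * S * T).factorization 7 = S.factorization 7 + T.factorization 7 := by
    rw [mul_assoc, fac4 hST0 p7 (by norm_num), fac_ST hS hT]
  rw [r7, prod7 hD, fac3 hF hS hT, ← M2_dt h hS hT hST, mul_assoc 4 S T, R1_four hF hST0, ← Fs_eq]
  split_ifs <;> ring

/-- **C2**, `7` inert, `7 ∣ T` -/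
theorem c2_i {A m : ℕ} (hA : A = 1 ∨ Fd A) (hm : Fn m) (hcop : Nat.Coprime A m)
    (h7 : I7 (A * m)) {T : ℕ} (hT0 : 0 < T) (hTn : T < A * m) (hT7 : 7 ∣ T) :
    Wd (fun _ => True) (7 ∣ ·) A m (A * m - T) T = -(sgnE 1 A (A * m) T *
      L7 (A * m) (2 * T - (A * m : ℕ)) (4 * (A * m - T) * T)) := by
  obtain ⟨hF, _⟩ := Fn_mul hA hm hcop
  have hFF := FF_of hF
  have hA0 : A ≠ 0 := by rintro rfl; exact hFF.n0 (by rw [zero_mul])
  have hm0 : m ≠ 0 := Fn_ne hm
  obtain ⟨n7, P7⟩ := Pool.Agent.N816.Xn.Ps7_inert hFF h7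
  have hA7 : ¬ 7 ∣ A := fun h => n7 ((hFF.mem p7).2 (h.mul_right m))
  obtain ⟨S, hSdef⟩ : ∃ S, S = A * m - T := ⟨_, rfl⟩
  rw [← hSdef]
  have hST : S + T = 1 * (A * m) := by omega
  have hS : S ≠ 0 := by omega
  have hT : T ≠ 0 := by omega
  have hS7 : ¬ 7 ∣ S := by
    intro h
    have h6 : 7 ∣ 1 * (A * m) := hST ▸ dvd_add h hT7
    rw [one_mul] at h6
    exact n7 ((hFF.mem p7).2 h6)
  have e1 : Wd (fun _ => True) (7 ∣ ·) A m S T = _ := Wd_DS (fun _ => True) (7 ∣ ·) hA0 hm0 hcop S T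
  rw [e1, DS_val lev_7 hFF (Or.inl rfl) hS hT hST
    (Lc_one hFF (Or.inl rfl) hS hT hST Nat.prime_three (by norm_num))
    (Lc_I01 n7 P7 (Or.inl hS7)), sdiff_m hA0 hm0 hcop, L7_val' hF hS hT hST,
    Nat.factorization_eq_zero_of_not_dvd hS7, zero_add]
  have m2 := main_2 hF (Or.inl rfl) hS hT hST
  by_cases ho : Odd (T.factorization 7)
  · rw [if_pos ho, if_pos ho]
    by_cases hne : Ff (A * m) S T 3 = 0
    · rw [hne]
      ring
    obtain ⟨d1, d2, d3, d4⟩ := three hFF (Or.inl rfl) hS hT hST hne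
    have m1 := main_m' hA hm hcop (Or.inl rfl) hS hT hST d4 hA7
    have d7 : hl (A * m) S T 7 = 1 := if_neg n7
    rw [if_neg n7, P7, ho.neg_one_pow] at d1
    rw [if_neg n7, Nat.factorization_eq_zero_of_not_dvd hS7, pow_zero] at d2
    rw [d1] at m1
    rw [d1, d2, d3, d7] at m2
    unfold Fs at *
    generalize ∏ l ∈ m.primeFactors, eT (A * m) T l = a at *
    generalize ∏ l ∈ Q' (A * m) S T, Ff (A * m) S T l = F at *
    generalize Ff (A * m) S T 3 = k at *
    have m3 : L2 (A * m) S T * F = M2 (A * m) S T * F := by linarith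
    linear_combination (-k) * m1 - (k * sgnE 1 A (A * m) T) * m3
  · rw [if_neg ho, if_neg ho]
    ring

/-- **C2**, `7 ∣ m` -/
theorem c2_r {A m : ℕ} (hA : A = 1 ∨ Fd A) (hm : Fn m) (hcop : Nat.Coprime A m)
    (h7A : ¬ 7 ∣ A) (h7 : 7 ∣ m) {T : ℕ} (hT0 : 0 < T) (hTn : T < A * m) :
    2 * Wd (fun _ => True) (7 ∣ ·) A m (A * m - T) T = -(sgnE 1 A (A * m) T *
      L7r (A * m) (2 * T - (A * m : ℕ)) (4 * (A * m - T) * T)) := by
  obtain ⟨hF, _⟩ := Fn_mul hA hm hcop
  have hFF := FF_of hF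
  have hA0 : A ≠ 0 := by rintro rfl; exact hFF.n0 (by rw [zero_mul])
  have hm0 : m ≠ 0 := Fn_ne hm
  have n7 : 7 ∈ (A * m).primeFactors := (hFF.mem p7).2 (h7.mul_left A)
  have n7A : 7 ∉ A.primeFactors := fun h => h7A (pf_dvd h)
  obtain ⟨S, hSdef⟩ : ∃ S, S = A * m - T := ⟨_, rfl⟩
  rw [← hSdef]
  have hST : S + T = 1 * (A * m) := by omega
  have hS : S ≠ 0 := by omega
  have hT : T ≠ 0 := by omega
  have hD : 4 * S * T ≠ 0 := mul_ne_zero (mul_ne_zero (by norm_num) hS) hT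
  have hST0 := mul_ne_zero hS hT
  have e1 : Wd (fun _ => True) (7 ∣ ·) A m S T = _ := Wd_DS (fun _ => True) (7 ∣ ·) hA0 hm0 hcop S T
  rw [e1, DS_val lev_7 hFF (Or.inl rfl) hS hT hST
    (Lc_one hFF (Or.inl rfl) hS hT hST Nat.prime_three (by norm_num))
    (Lc_R01 hS hT hST n7 n7A), sdiff_m hA0 hm0 hcop]
  have m2 := main_2 hF (Or.inl rfl) hS hT hST
  by_cases hT7 : 7 ∣ T
  · rw [if_pos hT7, L7r_eq hD (Dvd.dvd.mul_left hT7 _), fac3 hFF hS hT, ← M2_dt hF hS hT hST,
      hl_hh hFF hS hT (by norm_num) n7, mul_assoc 4 S T, R1_four hFF hST0, ← Fs_eq]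
    by_cases hne : Ff (A * m) S T 3 = 0
    · rw [hne]
      ring
    obtain ⟨d1, d2, d3, d4⟩ := three hFF (Or.inl rfl) hS hT hST hne
    have m1 := main_m' hA hm hcop (Or.inl rfl) hS hT hST d4 h7A
    rw [if_pos n7] at d1 d2
    rw [d1] at m1
    rw [d1, d2, d3] at m2
    unfold Fs at *
    generalize ∏ l ∈ m.primeFactors, eT (A * m) T l = a at *
    generalize ∏ l ∈ Q' (A * m) S T, Ff (A * m) S T l = F at *
    generalize Ff (A * m) S T 3 = k at *
    generalize hl (A * m) S T 7 = h7' at *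
    linear_combination (2 * k) * m1 - (k * sgnE 1 A (A * m) T) * m2
  · have h7D : ¬ 7 ∣ 4 * S * T := by
      rw [p7.dvd_mul, p7.dvd_mul]
      rintro ((h | h) | h)
      · omega
      · exact hT7 ((dvd_iff' hST n7).1 h)
      · exact hT7 h
    rw [if_neg hT7]
    unfold L7r
    rw [if_neg h7D]
    ring

end Pool.Agent.N971.P21G.X
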